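import Mathlib

/-!
Elementary plane geometry used for strong convex dimension: orientation of triples, the
quadrilateral lemma, and a cyclic ordering of a finite set in strictly convex position.
-/

namespace Pool.Agent.H80

/-- Twice the signed area of the triangle `p q r`. -/
def det3 (p q r : ℝ × ℝ) : ℝ :=
  (q.1 - p.1) * (r.2 - p.2) - (q.2 - p.2) * (r.1 - p.1)

/-- The linear functional with coefficients `c`. -/
def lin (c : ℝ × ℝ) (x : ℝ × ℝ) : ℝ := c.1 * x.1 + c.2 * x.2

lemma det3_rot (p q r : ℝ × ℝ) : det3 q r p = det3 p q r := by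
  unfold det3; ring

/-- Quadrilateral lemma. -/
lemma quad (p q r s c : ℝ × ℝ) (h1 : 0 < det3 p q r) (h2 : 0 < det3 q r s)
    (h3 : 0 < det3 r s p)
    (hpr : lin c p ≤ lin c r) (hq : lin c r < lin c q) (hs : lin c r < lin c s) : False := by
  have key : det3 q r s * lin c p + det3 s p q * lin c r
      = det3 r s p * lin c q + det3 p q r * lin c s := by
    unfold det3 lin; ring
  have key2 : det3 q r s + det3 s p q = det3 r s p + det3 p q r := by
    unfold det3; ring
  have key3 : (det3 q r s + det3 s p q) * lin c r = (det3 r s p + det3 p q r) * lin c r := by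
    rw [key2]
  have t1 := mul_pos h3 (sub_pos.2 hq)
  have t2 := mul_pos h1 (sub_pos.2 hs)
  have t3 := mul_nonneg h2.le (sub_nonneg.2 hpr)
  nlinarith

/-- two-dimensional cross product -/
def cross (u v : ℝ × ℝ) : ℝ := u.1 * v.2 - u.2 * v.1

lemma cross_pluecker (c u v w : ℝ × ℝ) :
    lin c u * cross v w + lin c v * cross w u + lin c w * cross u v = 0 := by
  unfold lin cross; ring

lemma lin_sub (c u v : ℝ × ℝ) : lin c (u - v) = lin c u - lin c v := by
  unfold lin; simp; ring

section ordering

variable {V : Type*} [DecidableEq V]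

/-- A finite set in strictly convex position (witnessed by supporting functionals) can be
listed counterclockwise. -/
theorem exists_ccw (S : Finset V) (p : V → ℝ × ℝ) (hS : S.Nonempty)
    (hp : ∀ v ∈ S, ∃ c : ℝ × ℝ, ∀ w ∈ S, w ≠ v → lin c (p w) < lin c (p v)) :
    ∃ e : Fin S.card ≃ S, ∀ i j k : Fin S.card, i < j → j < k →
      0 < det3 (p (e i)) (p (e j)) (p (e k)) := by
  classical
  obtain ⟨v0, hv0⟩ := hS
  obtain ⟨c, hc⟩ := hp v0 hv0
  -- the key
  let u : V → ℝ × ℝ := fun w => p w - p v0
  let psi : ℝ × ℝ → ℝ := fun x => - c.2 * x.1 + c.1 * x.2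
  have hphi : ∀ w ∈ S, w ≠ v0 → lin c (u w) < 0 := by
    intro w hw hne
    have := hc w hw hne
    simp only [u, lin_sub]; linarith
  have hid : ∀ x y : ℝ × ℝ, (c.1 ^ 2 + c.2 ^ 2) * cross x y
      = lin c x * psi y - psi x * lin c y := by
    intro x y; simp only [psi]; unfold lin cross; ring
  let t : V → ℝ := fun w => psi (u w) / lin c (u w)
  have hcross : ∀ w ∈ S, w ≠ v0 → ∀ w' ∈ S, w' ≠ v0 →
      (c.1 ^ 2 + c.2 ^ 2) * cross (u w) (u w') = lin c (u w) * lin c (u w') * (t w' - t w) := by
    intro w hw hne w' hw' hne'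
    have h1 := hphi w hw hne
    have h2 := hphi w' hw' hne'
    rw [hid]
    have h1' := h1.ne
    have h2' := h2.ne
    simp only [t]
    rw [div_sub_div _ _ h2' h1']
    field_simp
  have hcpos : ∀ w ∈ S, w ≠ v0 → 0 < c.1 ^ 2 + c.2 ^ 2 := by
    intro w hw hne
    have h1 := hphi w hw hne
    by_contra hcon
    have : c.1 ^ 2 + c.2 ^ 2 = 0 := le_antisymm (not_lt.1 hcon) (by positivity)
    have ha : c.1 = 0 := by nlinarith [sq_nonneg c.1, sq_nonneg c.2]
    have hb : c.2 = 0 := by nlinarith [sq_nonneg c.1, sq_nonneg c.2]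
    simp [lin, ha, hb] at h1
  have hpos : ∀ w ∈ S, w ≠ v0 → ∀ w' ∈ S, w' ≠ v0 → t w < t w' → 0 < cross (u w) (u w') := by
    intro w hw hne w' hw' hne' hlt
    have h0 := hcpos w hw hne
    have h1 := hphi w hw hne
    have h2 := hphi w' hw' hne'
    have h3 := hcross w hw hne w' hw' hne'
    have h4 : 0 < lin c (u w) * lin c (u w') * (t w' - t w) :=
      mul_pos (mul_pos_of_neg_of_neg h1 h2) (sub_pos.2 hlt)
    rw [← h3] at h4
    exact (pos_iff_pos_of_mul_pos h4).1 h0
  have hzero : ∀ w ∈ S, w ≠ v0 → ∀ w' ∈ S, w' ≠ v0 → t w = t w' → w = w' := by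
    intro w hw hne w' hw' hne' heq
    by_contra hww
    have h0 := hcpos w hw hne
    have h1 := hphi w hw hne
    have h2 := hphi w' hw' hne'
    have h3 := hcross w hw hne w' hw' hne'
    have hcr : cross (u w) (u w') = 0 := by
      rw [heq, sub_self, mul_zero] at h3
      rcases mul_eq_zero.1 h3 with h | h
      · exact absurd h h0.ne'
      · exact h
    -- functional for w and w'
    obtain ⟨d, hd⟩ := hp w hw
    obtain ⟨d', hd'⟩ := hp w' hw'
    have e1 := hd w' hw' (Ne.symm hww)
    have e2 := hd v0 hv0 (Ne.symm hne)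
    have e3 := hd' w hw hww
    have e4 := hd' v0 hv0 (Ne.symm hne')
    have k1 : 0 < lin d (u w) := by simp only [u, lin_sub]; linarith
    have k2 : lin d (u w') < lin d (u w) := by simp only [u, lin_sub]; linarith
    have k3 : 0 < lin d' (u w') := by simp only [u, lin_sub]; linarith
    have k4 : lin d' (u w) < lin d' (u w') := by simp only [u, lin_sub]; linarith
    -- proportionality
    have g1 : lin c (u w) * lin d (u w') = lin c (u w') * lin d (u w) := by
      unfold lin cross at *
      linear_combination (c.1 * d.2 - c.2 * d.1) * hcr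
    have g2 : lin c (u w) * lin d' (u w') = lin c (u w') * lin d' (u w) := by
      unfold lin cross at *
      linear_combination (c.1 * d'.2 - c.2 * d'.1) * hcr
    rcases lt_trichotomy (lin c (u w)) (lin c (u w')) with h | h | h
    · nlinarith
    · nlinarith
    · nlinarith
  let key : S → WithBot ℝ := fun w => if (w : V) = v0 then ⊥ else ((t w : ℝ) : WithBot ℝ)
  have hkey : Function.Injective key := by
    intro w w' h
    by_cases hw : (w : V) = v0
    · by_cases hw' : (w' : V) = v0
      · exact Subtype.ext (hw.trans hw'.symm)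
      · simp [key, hw, hw'] at h
    · by_cases hw' : (w' : V) = v0
      · simp [key, hw, hw'] at h
      · simp only [key, hw, hw', if_false] at h
        exact Subtype.ext (hzero w w.2 hw w' w'.2 hw' (WithBot.coe_injective h))
  let _ : LinearOrder S := LinearOrder.lift' key hkey
  have hcard : Fintype.card S = S.card := by simp
  let e := monoEquivOfFin S hcard
  refine ⟨e.toEquiv, ?_⟩
  intro i j k hij hjk
  have hlt : ∀ a b : S, a < b ↔ key a < key b := fun a b => Iff.rfl
  have hij' : key (e i) < key (e j) := (hlt _ _).1 (e.strictMono hij)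
  have hjk' : key (e j) < key (e k) := (hlt _ _).1 (e.strictMono hjk)
  have hj0 : ((e j : S) : V) ≠ v0 := by
    intro h
    have : key (e j) = ⊥ := by simp [key, h]
    rw [this] at hij'
    exact not_lt_bot hij'
  have hk0 : ((e k : S) : V) ≠ v0 := by
    intro h
    have : key (e k) = ⊥ := by simp [key, h]
    rw [this] at hjk'
    exact not_lt_bot hjk'
  have hjk2 : t (e j) < t (e k) := by
    simpa [key, hj0, hk0] using hjk'
  have cjk := hpos _ (e j).2 hj0 _ (e k).2 hk0 hjk2
  change 0 < det3 (p (e i)) (p (e j)) (p (e k))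
  by_cases hi0 : ((e i : S) : V) = v0
  · rw [hi0]
    have : det3 (p v0) (p (e j)) (p (e k)) = cross (u (e j)) (u (e k)) := by
      simp only [u]; unfold det3 cross; simp
    rw [this]; exact cjk
  · have hij2 : t (e i) < t (e j) := by
      simpa [key, hj0, hi0] using hij'
    have cij := hpos _ (e i).2 hi0 _ (e j).2 hj0 hij2
    have cik := hpos _ (e i).2 hi0 _ (e k).2 hk0 (hij2.trans hjk2)
    obtain ⟨d, hd⟩ := hp _ (e j).2
    have hne1 : ((e i : S) : V) ≠ (e j : S) := by
      intro h
      have : e i = e j := Subtype.ext h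
      rw [this] at hij'
      exact lt_irrefl _ hij'
    have hne2 : ((e k : S) : V) ≠ (e j : S) := by
      intro h
      have : e k = e j := Subtype.ext h
      rw [this] at hjk'
      exact lt_irrefl _ hjk'
    have e1 := hd _ (e i).2 hne1
    have e2 := hd _ (e k).2 hne2
    have e3 := hd v0 hv0 (Ne.symm hj0)
    have k1 : lin d (u (e i)) < lin d (u (e j)) := by simp only [u, lin_sub]; linarith
    have k2 : lin d (u (e k)) < lin d (u (e j)) := by simp only [u, lin_sub]; linarith
    have k3 : 0 < lin d (u (e j)) := by simp only [u, lin_sub]; linarith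
    have pl := cross_pluecker d (u (e i)) (u (e j)) (u (e k))
    have hanti : cross (u (e k)) (u (e i)) = - cross (u (e i)) (u (e k)) := by
      unfold cross; ring
    rw [hanti] at pl
    have hdet : det3 (p (e i)) (p (e j)) (p (e k))
        = cross (u (e i)) (u (e j)) + cross (u (e j)) (u (e k)) - cross (u (e i)) (u (e k)) := by
      simp only [u]; unfold det3 cross; simp; ring
    rw [hdet]
    by_contra hcon
    push Not at hcon
    nlinarith [mul_pos cij (sub_pos.2 k2), mul_pos cjk (sub_pos.2 k1)]

end ordering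

end Pool.Agent.H80
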