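import Pool.Agent.H80.ConvGeom

/-!
The combinatorial core: a graph on points listed counterclockwise in strictly convex position,
with all edge midpoints separated by functionals.
-/

namespace Pool.Agent.H80

variable {V : Type*}

/-- Data: `m` points `p (P i)`, `i` mod `m`, in counterclockwise order, and a set `E` of edges
all of whose midpoints are strictly separated by linear functionals. All degrees at least 2. -/
structure Ctx (m : ℤ) (P : ℤ → V) (p : V → ℝ × ℝ) (E : Set (Sym2 V)) : Prop where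
  mpos : 0 < m
  per : ∀ i j, P i = P j ↔ m ∣ i - j
  orient : ∀ i j k, i < j → j < k → k < i + m → 0 < det3 (p (P i)) (p (P j)) (p (P k))
  irr : ∀ i, s(P i, P i) ∉ E
  deg2 : ∀ i, ∃ j k, i < j ∧ j < k ∧ k < i + m ∧ s(P i, P j) ∈ E ∧ s(P i, P k) ∈ E
  sep : ∀ i j, s(P i, P j) ∈ E → ∃ c : ℝ × ℝ, ∀ k l, s(P k, P l) ∈ E →
    s(P k, P l) ≠ s(P i, P j) →
    lin c (p (P k)) + lin c (p (P l)) < lin c (p (P i)) + lin c (p (P j))

namespace Ctx

variable {m : ℤ} {P : ℤ → V} {p : V → ℝ × ℝ} {E : Set (Sym2 V)}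

lemma P_add (h : Ctx m P p E) (i : ℤ) : P (i + m) = P i :=
  (h.per _ _).2 ⟨1, by ring⟩

lemma P_sub (h : Ctx m P p E) (i : ℤ) : P (i - m) = P i :=
  (h.per _ _).2 ⟨-1, by ring⟩

/-- quadrilateral lemma for cyclic indices -/
lemma quad (h : Ctx m P p E) (c : ℝ × ℝ) {i j k l : ℤ} (hij : i < j) (hjk : j < k) (hkl : k < l)
    (hli : l < i + m) (h1 : lin c (p (P i)) ≤ lin c (p (P k)))
    (h2 : lin c (p (P k)) < lin c (p (P j))) (h3 : lin c (p (P k)) < lin c (p (P l))) : False := by
  refine Pool.Agent.H80.quad (p (P i)) (p (P j)) (p (P k)) (p (P l)) c ?_ ?_ ?_ h1 h2 h3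
  · exact h.orient i j k hij hjk (by omega)
  · exact h.orient j k l hjk hkl (by omega)
  · have := h.orient i k l (by omega) hkl hli
    rwa [← det3_rot] at this

/-- existence of the first neighbour function -/
lemma exists_f (h : Ctx m P p E) : ∃ f : ℤ → ℤ, ∀ i, i < f i ∧ s(P i, P (f i)) ∈ E ∧
    ∀ k, i < k → s(P i, P k) ∈ E → f i ≤ k := by
  have : ∀ i, ∃ j, (i < j ∧ s(P i, P j) ∈ E) ∧ ∀ k, (i < k ∧ s(P i, P k) ∈ E) → j ≤ k := by
    intro i
    apply Int.exists_least_of_bdd
    · exact ⟨i, fun z hz => hz.1.le⟩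
    · obtain ⟨j, k, h1, h2, h3, h4, h5⟩ := h.deg2 i
      exact ⟨j, h1, h4⟩
  choose f hf using this
  exact ⟨f, fun i => ⟨(hf i).1.1, (hf i).1.2, fun k hk hk' => (hf i).2 k ⟨hk, hk'⟩⟩⟩

lemma exists_l (h : Ctx m P p E) : ∃ l : ℤ → ℤ, ∀ i, l i < i ∧ s(P i, P (l i)) ∈ E ∧
    ∀ k, k < i → s(P i, P k) ∈ E → k ≤ l i := by
  have : ∀ i, ∃ j, (j < i ∧ s(P i, P j) ∈ E) ∧ ∀ k, (k < i ∧ s(P i, P k) ∈ E) → k ≤ j := by
    intro i
    apply Int.exists_greatest_of_bdd
    · exact ⟨i, fun z hz => hz.1.le⟩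
    · obtain ⟨j, k, h1, h2, h3, h4, h5⟩ := h.deg2 i
      refine ⟨j - m, by omega, ?_⟩
      rw [h.P_sub]; exact h4
  choose l hl using this
  exact ⟨l, fun i => ⟨(hl i).1.1, (hl i).1.2, fun k hk hk' => (hl i).2 k ⟨hk, hk'⟩⟩⟩

end Ctx

/-- The context together with first and last neighbour functions. -/
structure Ctx2 (m : ℤ) (P : ℤ → V) (p : V → ℝ × ℝ) (E : Set (Sym2 V)) (f l : ℤ → ℤ) : Prop
    extends Ctx m P p E where
  f_lt : ∀ i, i < f i
  f_mem : ∀ i, s(P i, P (f i)) ∈ E
  f_min : ∀ i k, i < k → s(P i, P k) ∈ E → f i ≤ k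
  l_lt : ∀ i, l i < i
  l_mem : ∀ i, s(P i, P (l i)) ∈ E
  l_max : ∀ i k, k < i → s(P i, P k) ∈ E → k ≤ l i

namespace Ctx2

variable {m : ℤ} {P : ℤ → V} {p : V → ℝ × ℝ} {E : Set (Sym2 V)} {f l : ℤ → ℤ}

lemma fl (h : Ctx2 m P p E f l) (i : ℤ) : f i < l i + m := by
  obtain ⟨j, k, h1, h2, h3, h4, h5⟩ := h.deg2 i
  have a := h.f_min i j h1 h4
  have b := h.l_max i (k - m) (by omega) (by rw [h.P_sub]; exact h5)
  omega

lemma f_add (h : Ctx2 m P p E f l) (i : ℤ) : f (i + m) = f i + m := by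
  apply le_antisymm
  · apply h.f_min
    · have := h.f_lt i; omega
    · rw [h.P_add, h.P_add]; exact h.f_mem i
  · have h1 := h.f_min i (f (i + m) - m) (by have := h.f_lt (i + m); omega)
      (by rw [h.P_sub, ← h.P_add i]; exact h.f_mem (i + m))
    omega

lemma l_add (h : Ctx2 m P p E f l) (i : ℤ) : l (i + m) = l i + m := by
  apply le_antisymm
  · have h1 := h.l_max i (l (i + m) - m) (by have := h.l_lt (i + m); omega)
      (by rw [h.P_sub, ← h.P_add i]; exact h.l_mem (i + m))
    omega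
  · apply h.l_max
    · have := h.l_lt i; omega
    · rw [h.P_add, h.P_add]; exact h.l_mem i

lemma l_sub (h : Ctx2 m P p E f l) (i : ℤ) : l (i - m) = l i - m := by
  have := h.l_add (i - m)
  rw [sub_add_cancel] at this; omega

lemma f_sub (h : Ctx2 m P p E f l) (i : ℤ) : f (i - m) = f i - m := by
  have := h.f_add (i - m)
  rw [sub_add_cancel] at this; omega

lemma f_congr (h : Ctx2 m P p E f l) {i j : ℤ} (hd : m ∣ i - j) : f i - i = f j - j := by
  obtain ⟨t, ht⟩ := hd
  have key : ∀ (t : ℕ) (j : ℤ), f (j + m * t) = f j + m * t := by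
    intro t
    induction t with
    | zero => intro j; simp
    | succ t ih =>
      intro j
      have : j + m * ((t + 1 : ℕ) : ℤ) = (j + m * t) + m := by push_cast; ring
      rw [this, h.f_add, ih]; push_cast; ring
  rcases le_total 0 t with h0 | h0
  · obtain ⟨u, rfl⟩ := Int.eq_ofNat_of_zero_le h0
    have : i = j + m * u := by linarith
    rw [this, key]; ring
  · obtain ⟨u, hu⟩ := Int.eq_ofNat_of_zero_le (neg_nonneg.2 h0)
    have : j = i + m * u := by rw [← hu]; linarith
    rw [this, key]; ring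

lemma l_congr (h : Ctx2 m P p E f l) {i j : ℤ} (hd : m ∣ i - j) : l i - i = l j - j := by
  obtain ⟨t, ht⟩ := hd
  have key : ∀ (t : ℕ) (j : ℤ), l (j + m * t) = l j + m * t := by
    intro t
    induction t with
    | zero => intro j; simp
    | succ t ih =>
      intro j
      have : j + m * ((t + 1 : ℕ) : ℤ) = (j + m * t) + m := by push_cast; ring
      rw [this, h.l_add, ih]; push_cast; ring
  rcases le_total 0 t with h0 | h0
  · obtain ⟨u, rfl⟩ := Int.eq_ofNat_of_zero_le h0
    have : i = j + m * u := by linarith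
    rw [this, key]; ring
  · obtain ⟨u, hu⟩ := Int.eq_ofNat_of_zero_le (neg_nonneg.2 h0)
    have : j = i + m * u := by rw [← hu]; linarith
    rw [this, key]; ring

lemma lin_neg_left (c x : ℝ × ℝ) : lin (-c) x = - lin c x := by unfold lin; simp; ring

/-- the higher end of an edge sees it as its first or last edge -/
lemma own_aux (h : Ctx2 m P p E f l) {c : ℝ × ℝ} {i j : ℤ} (hij : i < j) (hjm : j < i + m)
    (hE : s(P i, P j) ∈ E)
    (hc : ∀ k l, s(P k, P l) ∈ E → s(P k, P l) ≠ s(P i, P j) →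
        lin c (p (P k)) + lin c (p (P l)) < lin c (p (P i)) + lin c (p (P j)))
    (hle : lin c (p (P j)) ≤ lin c (p (P i))) : f i = j ∨ l i = j - m := by
  by_contra hcon
  push Not at hcon
  obtain ⟨h1, h2⟩ := hcon
  have h3 : f i < j := lt_of_le_of_ne (h.f_min i j hij hE) h1
  have h4 : j - m < l i := lt_of_le_of_ne
    (h.l_max i (j - m) (by omega) (by rw [h.P_sub]; exact hE)) (Ne.symm h2)
  have h5 := h.f_lt i
  have h6 := h.l_lt i
  have hnd : ∀ a b : ℤ, a < b → b < a + m → P a ≠ P b := by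
    intro a b hab hb heq
    have := (h.per a b).1 heq
    obtain ⟨t, ht⟩ := this
    have hm := h.mpos
    rcases lt_trichotomy t 0 with ht0 | ht0 | ht0
    · nlinarith
    · subst ht0; omega
    · nlinarith
  have hcancel : ∀ k, i < k → k < i + m → s(P i, P k) ∈ E → k ≠ j →
      lin c (p (P k)) < lin c (p (P j)) := by
    intro k hk1 hk2 hkE hkj
    have hne : s(P i, P k) ≠ s(P i, P j) := by
      intro heq
      rw [Sym2.eq_iff] at heq
      have : P k = P j := by
        rcases heq with ⟨_, h⟩ | ⟨h1, h2⟩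
        · exact h
        · exact absurd h1 (hnd i j hij hjm)
      rcases lt_or_gt_of_ne hkj with hlt | hgt
      · exact hnd k j hlt (by omega) this
      · exact hnd j k hgt (by omega) this.symm
    have := hc i k hkE hne
    linarith
  have g1 := hcancel (f i) h5 (by omega) (h.f_mem i) (by omega)
  have g2 := hcancel (l i + m) (by omega) (by omega) (by rw [h.P_add]; exact h.l_mem i) (by omega)
  refine h.quad (-c) h5 h3 (by omega : j < l i + m) (by omega) ?_ ?_ ?_
  · rw [lin_neg_left, lin_neg_left]; linarith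
  · rw [lin_neg_left, lin_neg_left]; linarith
  · rw [lin_neg_left, lin_neg_left]; linarith

/-- `R1`: every edge is the first or last edge of its higher end. -/
lemma own (h : Ctx2 m P p E f l) {i j : ℤ} (hij : i < j) (hjm : j < i + m)
    (hE : s(P i, P j) ∈ E) :
    f i = j ∨ l i = j - m ∨ f j = i + m ∨ l j = i := by
  obtain ⟨c, hc⟩ := h.sep i j hE
  rcases le_total (lin c (p (P j))) (lin c (p (P i))) with hle | hle
  · rcases h.own_aux hij hjm hE hc hle with h1 | h1
    · exact Or.inl h1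
    · exact Or.inr (Or.inl h1)
  · have hE' : s(P j, P (i + m)) ∈ E := by rw [h.P_add, Sym2.eq_swap]; exact hE
    have hc' : ∀ k l, s(P k, P l) ∈ E → s(P k, P l) ≠ s(P j, P (i + m)) →
        lin c (p (P k)) + lin c (p (P l)) < lin c (p (P j)) + lin c (p (P (i + m))) := by
      intro k l hkl hne
      rw [h.P_add] at hne ⊢
      have := hc k l hkl (by rw [Sym2.eq_swap (a := P i)]; exact hne)
      linarith
    rcases h.own_aux (by omega) (by omega) hE' hc' (by rw [h.P_add]; exact hle) with h1 | h1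
    · exact Or.inr (Or.inr (Or.inl h1))
    · exact Or.inr (Or.inr (Or.inr (by omega)))

end Ctx2

end Pool.Agent.H80
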