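import Pool.Agent.H80.CycFour

/-!
Counting edges by their labels.
-/

namespace Pool.Agent.H80

variable {V : Type*}

namespace Ctx2

variable {m : ℤ} {P : ℤ → V} {p : V → ℝ × ℝ} {E : Set (Sym2 V)} {f l : ℤ → ℤ}

/-- the edge with a given label -/
def lab (P : ℤ → V) (f l : ℤ → ℤ) (a : ℤ × Bool) : Sym2 V :=
  if a.2 then s(P a.1, P (f a.1)) else s(P a.1, P (l a.1))

lemma lab_congr (h : Ctx2 m P p E f l) {i j : ℤ} (b : Bool) (hP : P i = P j) :
    lab P f l (i, b) = lab P f l (j, b) := by
  cases b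
  · simp only [lab, Bool.false_eq_true, if_false]; exact h.eL_congr hP
  · simp only [lab, if_true]; exact h.eF_congr hP

lemma lab_mem (h : Ctx2 m P p E f l) (a : ℤ × Bool) : lab P f l a ∈ E := by
  obtain ⟨i, b⟩ := a
  cases b
  · simp only [lab, Bool.false_eq_true, if_false]; exact h.l_mem i
  · simp only [lab, if_true]; exact h.f_mem i

lemma dbl_lab (h : Ctx2 m P p E f l) {e : Sym2 V} (he : Dbl m P f l e) :
    ∃ i j : ℤ, ∃ b b' : Bool, lab P f l (i, b) = e ∧ lab P f l (j, b') = e ∧
      (b ≠ b' ∨ P i ≠ P j) := by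
  rcases he with ⟨x, h1, h2⟩ | ⟨x, h1, h2⟩ | ⟨x, h1, h2⟩
  · refine ⟨x, f x, true, false, ?_, ?_, Or.inl (by simp)⟩
    · simp [lab, h2]
    · simp only [lab, Bool.false_eq_true, if_false]
      rw [h1, h2, Sym2.eq_swap]
  · refine ⟨x, f x, true, true, ?_, ?_, Or.inr (fun hP => ?_)⟩
    · simp [lab, h2]
    · simp only [lab, if_true]
      rw [h1, h.P_add, h2, Sym2.eq_swap]
    · have := h.f_mem x
      rw [← hP] at this
      exact h.irr x this
  · refine ⟨x, l x, false, false, ?_, ?_, Or.inr (fun hP => ?_)⟩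
    · simp [lab, h2]
    · simp only [lab, Bool.false_eq_true, if_false]
      rw [h1, h.P_sub, h2, Sym2.eq_swap]
    · have := h.l_mem x
      rw [← hP] at this
      exact h.irr x this

lemma exists_lab (h : Ctx2 m P p E f l) {i j : ℤ} (hE : s(P i, P j) ∈ E) :
    ∃ a : ℤ × Bool, lab P f l a = s(P i, P j) := by
  have hm := h.mpos
  let j' := i + (j - i) % m
  have hj' : P j' = P j := (h.per _ _).2 (by
    have : j' - j = -(m * ((j - i) / m)) := by
      have := Int.emod_add_mul_ediv (j - i) m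
      simp only [j']; omega
    rw [this, dvd_neg]; exact dvd_mul_right _ _)
  have h1 : 0 ≤ (j - i) % m := Int.emod_nonneg _ hm.ne'
  have h2 : (j - i) % m < m := Int.emod_lt_of_pos _ hm
  have h3 : i ≠ j' := by
    intro h0
    apply h.irr i
    rw [← hj', ← h0] at hE
    exact hE
  rw [← hj'] at hE ⊢
  have h4 : i < j' := by simp only [j'] at h3 ⊢; omega
  have h5 : j' < i + m := by simp only [j']; omega
  rcases h.own h4 h5 hE with g | g | g | g
  · exact ⟨(i, true), by simp [lab, g]⟩
  · exact ⟨(i, false), by simp [lab, g, h.P_sub]⟩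
  · exact ⟨(j', true), by simp [lab, g, h.P_add, Sym2.eq_swap]⟩
  · exact ⟨(j', false), by simp [lab, g, Sym2.eq_swap]⟩

theorem card_le (h : Ctx2 m P p E f l) (hm : 4 ≤ m) (EF : Finset (Sym2 V)) (hEF : E = ↑EF)
    (hin : ∀ e ∈ EF, ∃ i j, e = s(P i, P j)) : (EF.card : ℤ) + 4 ≤ 2 * m := by
  classical
  obtain ⟨M, rfl⟩ := Int.eq_ofNat_of_zero_le h.mpos.le
  have hred : ∀ i : ℤ, ∃ a : Fin M, P (a : ℕ) = P i := by
    intro i
    have h1 : 0 ≤ i % M := Int.emod_nonneg _ h.mpos.ne'
    have h2 : i % M < M := Int.emod_lt_of_pos _ h.mpos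
    refine ⟨⟨(i % M).toNat, by omega⟩, (h.per _ _).2 ?_⟩
    have : (((i % M).toNat : ℕ) : ℤ) - i = -(M * (i / M)) := by
      have := Int.emod_add_mul_ediv i M
      omega
    simp only
    rw [this, dvd_neg]; exact dvd_mul_right _ _
  let L : Fin M × Bool → Sym2 V := fun a => lab P f l ((a.1 : ℕ), a.2)
  have hL : ∀ a : ℤ × Bool, ∃ b : Fin M × Bool, P (b.1 : ℕ) = P a.1 ∧ b.2 = a.2 ∧
      L b = lab P f l a := by
    intro a
    obtain ⟨b, hb⟩ := hred a.1
    exact ⟨(b, a.2), hb, rfl, h.lab_congr a.2 hb⟩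
  have hmaps : ∀ a ∈ (Finset.univ : Finset (Fin M × Bool)), L a ∈ EF := by
    intro a _
    have := h.lab_mem ((a.1 : ℕ), a.2)
    rw [hEF] at this
    exact_mod_cast this
  have hcard := Finset.card_eq_sum_card_fiberwise hmaps
  obtain ⟨e₁, e₂, e₃, e₄, h12, h13, h14, h23, h24, h34, d1, d2, d3, d4⟩ := h.four hm
  let T : Finset (Sym2 V) := {e₁, e₂, e₃, e₄}
  have hT : T.card = 4 := by
    simp only [T]
    rw [Finset.card_insert_of_notMem, Finset.card_insert_of_notMem,
      Finset.card_insert_of_notMem, Finset.card_singleton]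
    · simpa using h34
    · simp only [Finset.mem_insert, Finset.mem_singleton, not_or]; exact ⟨h23, h24⟩
    · simp only [Finset.mem_insert, Finset.mem_singleton, not_or]; exact ⟨h12, h13, h14⟩
  have hTd : ∀ e ∈ T, Dbl (M : ℤ) P f l e := by
    intro e he
    simp only [T, Finset.mem_insert, Finset.mem_singleton] at he
    rcases he with rfl | rfl | rfl | rfl <;> assumption
  have hTE : T ⊆ EF := by
    intro e he
    obtain ⟨i, j, b, b', h1, h2, h3⟩ := h.dbl_lab (hTd e he)
    have := h.lab_mem (i, b)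
    rw [h1, hEF] at this
    exact_mod_cast this
  have hfib : ∀ e ∈ EF, 1 + (if e ∈ T then 1 else 0) ≤
      (Finset.univ.filter (fun a : Fin M × Bool => L a = e)).card := by
    intro e he
    split_ifs with hT'
    · obtain ⟨i, j, b, b', h1, h2, h3⟩ := h.dbl_lab (hTd e hT')
      obtain ⟨a, ha1, ha2, ha3⟩ := hL (i, b)
      obtain ⟨a', ha1', ha2', ha3'⟩ := hL (j, b')
      have hne : a ≠ a' := by
        rintro rfl
        rcases h3 with h3 | h3
        · exact h3 (ha2.symm.trans ha2')
        · exact h3 (ha1.symm.trans ha1')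
      have : ({a, a'} : Finset (Fin M × Bool)) ⊆
          Finset.univ.filter (fun a : Fin M × Bool => L a = e) := by
        intro x hx
        simp only [Finset.mem_insert, Finset.mem_singleton] at hx
        simp only [Finset.mem_filter, Finset.mem_univ, true_and]
        rcases hx with rfl | rfl
        · rw [ha3, h1]
        · rw [ha3', h2]
      have := Finset.card_le_card this
      rwa [Finset.card_pair hne] at this
    · obtain ⟨i, j, rfl⟩ := hin e he
      obtain ⟨a, ha⟩ := h.exists_lab (i := i) (j := j) (by rw [hEF]; exact_mod_cast he)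
      obtain ⟨b, _, _, hb⟩ := hL a
      have : b ∈ Finset.univ.filter (fun a : Fin M × Bool => L a = s(P i, P j)) := by
        simp only [Finset.mem_filter, Finset.mem_univ, true_and]
        rw [hb, ha]
      have := Finset.card_pos.2 ⟨b, this⟩
      omega
  have hsum := Finset.sum_le_sum hfib
  rw [← hcard, Finset.sum_add_distrib, Finset.sum_const, Finset.sum_ite_mem,
    Finset.inter_eq_right.2 hTE] at hsum
  simp only [smul_eq_mul, mul_one, Finset.sum_const, Finset.card_univ, Fintype.card_prod,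
    Fintype.card_fin, Fintype.card_bool, hT] at hsum
  push_cast
  omega

end Ctx2

end Pool.Agent.H80
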