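import Pool.Agent.H80.CycGap

/-!
Four doubly owned edges.
-/

namespace Pool.Agent.H80

variable {V : Type*}

namespace Ctx2

variable {m : ℤ} {P : ℤ → V} {p : V → ℝ × ℝ} {E : Set (Sym2 V)} {f l : ℤ → ℤ}

/-- an edge owned twice -/
def Dbl (m : ℤ) (P : ℤ → V) (f l : ℤ → ℤ) (e : Sym2 V) : Prop :=
  (∃ x, l (f x) = x ∧ e = s(P x, P (f x))) ∨ (∃ u, f (f u) = u + m ∧ e = s(P u, P (f u))) ∨
    (∃ u, l (l u) = u - m ∧ e = s(P u, P (l u)))

/-- an additional doubly owned edge, which is not given by a minimal arc -/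
def Extra (m : ℤ) (P : ℤ → V) (E : Set (Sym2 V)) (f l : ℤ → ℤ) : Prop :=
  (∃ x, l (f x) = x ∧ ¬ Mn P E f x) ∨ (∃ u, f (f u) = u + m) ∨ (∃ u, l (l u) = u - m)

lemma extra_edge (h : Ctx2 m P p E f l) (hx : Extra m P E f l) :
    ∃ e, Dbl m P f l e ∧ ∀ x, Mn P E f x → s(P x, P (f x)) ≠ e := by
  rcases hx with ⟨x, h1, h2⟩ | ⟨u, h1⟩ | ⟨u, h1⟩
  · refine ⟨s(P x, P (f x)), Or.inl ⟨x, h1, rfl⟩, fun y hy he => h2 ?_⟩
    have := h.D_inj (h.mn_lf hy) h1 he
    exact h.mn_congr ((h.per _ _).1 this.symm) hy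
  · exact ⟨s(P u, P (f u)), Or.inr (Or.inl ⟨u, h1, rfl⟩), fun y hy =>
      h.D_ne_MF (h.mn_lf hy) h1⟩
  · exact ⟨s(P u, P (l u)), Or.inr (Or.inr ⟨u, h1, rfl⟩), fun y hy =>
      h.D_ne_ML (h.mn_lf hy) h1⟩

lemma mn_edge_ne (h : Ctx2 m P p E f l) {x y : ℤ} (hx : Mn P E f x) (hy : Mn P E f y)
    (hxy : x < y) (hyx : y < x + m) : s(P x, P (f x)) ≠ s(P y, P (f y)) := by
  intro he
  exact h.P_ne hxy hyx (h.D_inj (h.mn_lf hx) (h.mn_lf hy) he)

/-- three minimal arcs in a period -/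
structure Chain (m : ℤ) (P : ℤ → V) (E : Set (Sym2 V)) (f : ℤ → ℤ) (x y z : ℤ) : Prop where
  mx : Mn P E f x
  xy : Nxt P E f x y
  yz : Nxt P E f y z
  zx : Nxt P E f z (x + m)

lemma Chain.rot (h : Ctx2 m P p E f l) {x y z : ℤ} (hc : Chain m P E f x y z) :
    Chain m P E f y z (x + m) :=
  ⟨hc.xy.2.1, hc.yz, hc.zx, h.nxt_add hc.xy⟩

lemma chain_extra (h : Ctx2 m P p E f l) {x y z : ℤ} (hc : Chain m P E f x y z)
    (hne : f x ≠ y) : Extra m P E f l := by
  have hx := hc.mx
  have hy := hc.xy.2.1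
  have hz := hc.yz.2.1
  have hfx := h.f_lt x
  have hfy := h.f_lt y
  have hfz := h.f_lt z
  rcases lt_or_gt_of_ne hne with hlt | hgt
  · -- gap
    have hP : l y ≤ l (f x) := by
      rw [h.mn_lf hx]
      apply h.l_le
      intro w hw hw'
      by_contra hcon
      have := hc.xy.2.2 w (by omega) hw'
      have := h.f_lt w
      omega
    have hQ : f y ≤ f (f x) := by
      apply h.f_ge hy
      intro w hw hw'
      exact hc.xy.2.2 w (by omega) hw'
    rcases h.gap hlt hP hQ with g | g | g | g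
    · left
      refine ⟨l y, by rw [g], fun hM => ?_⟩
      have h1 : l y ≤ x := by rw [h.mn_lf hx] at hP; exact hP
      have := hM x (f x) h1 hfx (by omega) (h.f_mem x)
      omega
    · right; right; exact ⟨y, g⟩
    · left
      refine ⟨f x, g, fun hM => ?_⟩
      have := hM y (f y) hlt.le hfy hQ (h.f_mem y)
      omega
    · right; left; exact ⟨f x, g⟩
  · -- `y < f x`
    right; left
    refine ⟨f x, ?_⟩
    have h1 : f z ≤ f (f x) := by
      apply h.f_ge hz
      intro w hw hw'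
      exact hc.yz.2.2 w (by omega) hw'
    have h2 : f (x + m) ≤ f (f (f x)) := by
      apply h.f_ge (h.mn_add hx)
      intro w hw hw'
      exact hc.zx.2.2 w (by omega) hw'
    rw [h.f_add] at h2
    have h3 := h.fl (f x)
    rw [h.mn_lf hx] at h3
    have h4 := h.f_min (f (f x)) (f x + m) (by omega)
      (by rw [h.P_add, Sym2.eq_swap]; exact h.f_mem (f x))
    omega

lemma chain_short (h : Ctx2 m P p E f l) {x y z : ℤ} (hc : Chain m P E f x y z)
    (h1 : f x = y) (_h2 : f y = z) (h3 : f z = x + m) : z ≤ y + 1 := by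
  by_contra hcon
  push Not at hcon
  have hx := hc.mx
  have hy := hc.xy.2.1
  have hz := hc.yz.2.1
  have g1 : f z ≤ f (y + 1) := by
    apply h.f_ge hz
    intro w hw hw'
    exact hc.yz.2.2 w (by omega) hw'
  have g2 : l (y + 1) ≤ x := by
    apply h.l_le
    intro w hw hw'
    by_contra hcon2
    have h5 := hc.xy.2.2 w (by omega) hw'
    have h6 := h.f_lt w
    rcases h5.lt_or_eq with h7 | h7
    · omega
    · subst h7
      omega
  have g3 := h.fl (y + 1)
  omega

theorem four (h : Ctx2 m P p E f l) (hm : 4 ≤ m) : ∃ e₁ e₂ e₃ e₄ : Sym2 V,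
    e₁ ≠ e₂ ∧ e₁ ≠ e₃ ∧ e₁ ≠ e₄ ∧ e₂ ≠ e₃ ∧ e₂ ≠ e₄ ∧ e₃ ≠ e₄ ∧
    Dbl m P f l e₁ ∧ Dbl m P f l e₂ ∧ Dbl m P f l e₃ ∧ Dbl m P f l e₄ := by
  obtain ⟨x, -, -, hx⟩ := h.exists_mn (h.f_lt 0) (h.f_mem 0)
  obtain ⟨y, hxy⟩ := h.exists_nxt hx
  have hy := hxy.2.1
  obtain ⟨z, hyz⟩ := h.exists_nxt hy
  have hz := hyz.2.1
  obtain ⟨w, hzw⟩ := h.exists_nxt hz
  have hw := hzw.2.1
  have hfx := h.f_lt x
  have hfy := h.f_lt y
  -- at least two minimal arcs in a period
  have hyx : y < x + m := by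
    obtain ⟨u, h1, h2, h3⟩ := h.exists_mn (h.f_lt (f x)) (h.f_mem (f x))
    have h4 := h.fl (f x)
    rw [h.mn_lf hx] at h4
    have h5 := hxy.2.2 u (by omega) h3
    have := h.f_lt u
    omega
  have hDx : Dbl m P f l s(P x, P (f x)) := Or.inl ⟨x, h.mn_lf hx, rfl⟩
  have hDy : Dbl m P f l s(P y, P (f y)) := Or.inl ⟨y, h.mn_lf hy, rfl⟩
  have hDz : Dbl m P f l s(P z, P (f z)) := Or.inl ⟨z, h.mn_lf hz, rfl⟩
  have hDw : Dbl m P f l s(P w, P (f w)) := Or.inl ⟨w, h.mn_lf hw, rfl⟩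
  have hxy' := hxy.1
  have hyz' := hyz.1
  have hzw' := hzw.1
  have hzx : z ≤ x + m := hyz.2.2 _ hyx (h.mn_add hx)
  rcases hzx.eq_or_lt with hzx | hzx
  · -- two minimal arcs in a period
    have h1 : f x ≤ y := by
      obtain ⟨u, h1, h2, h3⟩ := h.exists_mn (h.f_lt (f x)) (h.f_mem (f x))
      have h4 := h.fl (f x)
      rw [h.mn_lf hx] at h4
      have h5 := hxy.2.2 u (by omega) h3
      have h6 := h.f_lt u
      by_contra hcon
      have := hyz.2.2 u (by omega) h3
      omega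
    have h1' : f y ≤ x + m := by
      obtain ⟨u, h1, h2, h3⟩ := h.exists_mn (h.f_lt (f y)) (h.f_mem (f y))
      have h4 := h.fl (f y)
      rw [h.mn_lf hy] at h4
      have h6 := h.f_lt u
      by_contra hcon
      have := (h.nxt_add hxy).2.2 u (by omega) h3
      omega
    have hMF : f (f (f x)) = f x + m := by
      have h2 : f y ≤ f (f x) := by
        apply h.f_ge hy
        intro w hw hw'
        exact hxy.2.2 w (by omega) hw'
      have h3 : f z ≤ f (f (f x)) := by
        apply h.f_ge hz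
        intro w hw hw'
        exact hyz.2.2 w (by omega) hw'
      have h4 : f z = f x + m := by rw [hzx, h.f_add]
      have h5 := h.fl (f x)
      rw [h.mn_lf hx] at h5
      have h6 := h.f_min (f (f x)) (f x + m) (by omega)
        (by rw [h.P_add, Sym2.eq_swap]; exact h.f_mem (f x))
      omega
    have hML : l (l x) = x - m := by
      have h2 : l x ≤ y - m := by
        apply h.l_le
        intro w hw hw'
        by_contra hcon
        have h3 := hyz.2.2 (w + m) (by omega) (h.mn_add hw')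
        have := h.f_lt w
        omega
      have h3 : l (l x) ≤ x - m := by
        apply h.l_le
        intro w hw hw'
        by_contra hcon
        have h4 := hxy.2.2 (w + m) (by omega) (h.mn_add hw')
        have := h.f_lt w
        omega
      have h5 := h.fl x
      have h6 := h.l_max (l x) (x - m) (by omega)
        (by rw [h.P_sub, Sym2.eq_swap]; exact h.l_mem x)
      omega
    exact ⟨s(P x, P (f x)), s(P y, P (f y)), s(P (f x), P (f (f x))), s(P x, P (l x)),
      h.mn_edge_ne hx hy hxy' hyx, h.D_ne_MF (h.mn_lf hx) hMF, h.D_ne_ML (h.mn_lf hx) hML,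
      h.D_ne_MF (h.mn_lf hy) hMF, h.D_ne_ML (h.mn_lf hy) hML, h.MF_ne_ML hMF hML,
      hDx, hDy, Or.inr (Or.inl ⟨f x, hMF, rfl⟩), Or.inr (Or.inr ⟨x, hML, rfl⟩)⟩
  · have hwx : w ≤ x + m := hzw.2.2 _ hzx (h.mn_add hx)
    rcases hwx.eq_or_lt with hwx | hwx
    · -- three minimal arcs
      have hc : Chain m P E f x y z := ⟨hx, hxy, hyz, by rw [← hwx]; exact hzw⟩
      have hc2 : Chain m P E f y z (x + m) := Chain.rot h hc
      have hc3 : Chain m P E f z (x + m) (y + m) := Chain.rot h hc2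
      have hex : Extra m P E f l := by
        by_cases e1 : f x = y
        · by_cases e2 : f y = z
          · by_cases e3 : f z = x + m
            · exfalso
              have e4 : f (x + m) = y + m := by rw [h.f_add, e1]
              have e5 : f (y + m) = z + m := by rw [h.f_add, e2]
              have a1 := h.chain_short hc e1 e2 e3
              have a2 := h.chain_short hc2 e2 e3 e4
              have a3 := h.chain_short hc3 e3 e4 e5
              omega
            · exact h.chain_extra hc3 e3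
          · exact h.chain_extra hc2 e2
        · exact h.chain_extra hc e1
      obtain ⟨e, he, hne⟩ := h.extra_edge hex
      exact ⟨s(P x, P (f x)), s(P y, P (f y)), s(P z, P (f z)), e,
        h.mn_edge_ne hx hy hxy' hyx, h.mn_edge_ne hx hz (by omega) hzx, hne x hx,
        h.mn_edge_ne hy hz hyz' (by omega), hne y hy, hne z hz, hDx, hDy, hDz, he⟩
    · exact ⟨s(P x, P (f x)), s(P y, P (f y)), s(P z, P (f z)), s(P w, P (f w)),
        h.mn_edge_ne hx hy hxy' hyx, h.mn_edge_ne hx hz (by omega) hzx,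
        h.mn_edge_ne hx hw (by omega) hwx,
        h.mn_edge_ne hy hz hyz' (by omega), h.mn_edge_ne hy hw (by omega) (by omega),
        h.mn_edge_ne hz hw hzw' (by omega), hDx, hDy, hDz, hDw⟩

end Ctx2

end Pool.Agent.H80
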