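import Pool.Agent.H80.CycMain

/-!
The gap lemma.
-/

namespace Pool.Agent.H80

variable {V : Type*}

namespace Ctx2

variable {m : ℤ} {P : ℤ → V} {p : V → ℝ × ℝ} {E : Set (Sym2 V)} {f l : ℤ → ℤ}

/-- two opposite points cannot both be lower than the two other ones -/
lemma quad2 (h : Ctx2 m P p E f l) (c : ℝ × ℝ) {i j k l' : ℤ} (hij : i < j) (hjk : j < k)
    (hkl : k < l') (hli : l' < i + m)
    (h1 : lin c (p (P i)) < lin c (p (P j))) (h2 : lin c (p (P i)) < lin c (p (P l')))
    (h3 : lin c (p (P k)) < lin c (p (P j))) (h4 : lin c (p (P k)) < lin c (p (P l'))) :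
    False := by
  rcases le_total (lin c (p (P i))) (lin c (p (P k))) with hle | hle
  · exact h.quad c hij hjk hkl hli hle h3 h4
  · refine h.quad c hkl (by omega : l' < i + m) (by omega : i + m < j + m) (by omega) ?_ ?_ ?_
    · rw [h.P_add]; exact hle
    · rw [h.P_add]; exact h2
    · rw [h.P_add, h.P_add]; exact h1

lemma half (h : Ctx2 m P p E f l) {a b : ℤ} (hab : a < b) (hP : l b ≤ l a)
    (n1 : f (l b) ≠ b) (n2 : l (l b) ≠ b - m) :
    0 < cross (p (P b) - p (P a)) (p (P (f b)) - p (P (l b))) := by
  have hxa := h.l_lt a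
  have hby := h.f_lt b
  have hyP := h.fl b
  have hlb := h.l_lt b
  have hE : s(P (l b), P b) ∈ E := by rw [Sym2.eq_swap]; exact h.l_mem b
  obtain ⟨c, hc⟩ := h.sep (l b) b hE
  have k1 : lin c (p (P (l b))) < lin c (p (P b)) := by
    by_contra hcon
    rcases h.own_aux (by omega) (by omega) hE hc (not_lt.1 hcon) with h1 | h1
    · exact n1 h1
    · exact n2 h1
  have k2 : lin c (p (P (f b))) < lin c (p (P (l b))) := by
    have := hc b (f b) (h.f_mem b) (by
      intro heq
      rcases Sym2.eq_iff.1 heq with ⟨h1, _⟩ | ⟨_, h2⟩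
      · exact h.P_ne (a := l b) (b := b) hlb (by omega) h1.symm
      · refine h.P_ne (a := f b) (b := l b + m) (by omega) (by omega) ?_
        rw [h.P_add]; exact h2)
    linarith
  have k3 : lin c (p (P (l b))) ≤ lin c (p (P (l a))) := by
    rcases hP.eq_or_lt with h1 | h1
    · rw [h1]
    · by_contra hcon
      push Not at hcon
      refine h.quad2 c (by omega : l a < b) hby hyP (by omega) (by linarith) ?_ (by linarith) ?_
      · rw [h.P_add]; exact hcon
      · rw [h.P_add]; exact k2
  have k4 : lin c (p (P a)) < lin c (p (P b)) := by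
    have := hc a (l a) (h.l_mem a) (by
      intro heq
      rcases Sym2.eq_iff.1 heq with ⟨h1, _⟩ | ⟨h1, h2⟩
      · exact h.P_ne (a := l b) (b := a) (by omega) (by omega) h1.symm
      · exact h.P_ne (a := a) (b := b) (by omega) (by omega) h1)
    linarith
  have o1 := h.orient (l b) b (f b) hlb hby hyP
  have o2 := h.orient (l b) a b (by omega) hab (by omega)
  have pl := cross_pluecker c (p (P b) - p (P (l b))) (p (P b) - p (P a))
    (p (P (f b)) - p (P (l b)))
  rw [lin_sub, lin_sub, lin_sub] at pl
  have c1 : cross (p (P (f b)) - p (P (l b))) (p (P b) - p (P (l b)))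
      = - det3 (p (P (l b))) (p (P b)) (p (P (f b))) := by
    unfold cross det3; simp; ring
  have c2 : cross (p (P b) - p (P (l b))) (p (P b) - p (P a))
      = det3 (p (P (l b))) (p (P a)) (p (P b)) := by
    unfold cross det3; simp; ring
  rw [c1, c2] at pl
  by_contra hcon
  push Not at hcon
  have t1 := mul_nonpos_of_nonneg_of_nonpos (sub_pos.2 k1).le hcon
  have t2 := mul_pos (sub_pos.2 k4) o1
  have t3 := mul_pos (sub_pos.2 k2) o2
  nlinarith

/-- The gap lemma. -/
theorem gap (h : Ctx2 m P p E f l) {a b : ℤ} (hab : a < b) (hP : l b ≤ l a)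
    (hQ : f b ≤ f a) :
    f (l b) = b ∨ l (l b) = b - m ∨ l (f a) = a ∨ f (f a) = a + m := by
  by_contra hcon
  push Not at hcon
  obtain ⟨n1, n2, n3, n4⟩ := hcon
  have g1 := h.half hab hP n1 n2
  have g2 := h.mirror.half (a := -b) (b := -a) (by omega)
    (by simp only [neg_neg]; omega) (by simp only [neg_neg]; omega)
    (by simp only [neg_neg]; omega)
  simp only [neg_neg] at g2
  have hxa := h.l_lt a
  have hby := h.f_lt b
  have hyP := h.fl b
  have hQx := h.fl a
  -- the height above the line `a b`
  let c : ℝ × ℝ := (-(p (P b) - p (P a)).2, (p (P b) - p (P a)).1)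
  have hl : ∀ w, lin c w = cross (p (P b) - p (P a)) w := by
    intro w; simp only [c]; unfold lin cross; ring
  have e1 : lin c (p (P (l b))) < lin c (p (P (f b))) := by
    have := hl (p (P (f b)) - p (P (l b)))
    rw [lin_sub] at this; linarith
  have e2 : lin c (p (P (f a))) < lin c (p (P (l a))) := by
    have h3 := hl (p (P (f a)) - p (P (l a)))
    rw [lin_sub] at h3
    have h4 : cross (p (P b) - p (P a)) (p (P (f a)) - p (P (l a))) < 0 := by
      unfold cross at g2 ⊢
      simp only [Prod.fst_sub, Prod.snd_sub] at g2 ⊢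
      linarith
    linarith
  have ha0 : ∀ w, b < w → w < a + m → lin c (p (P a)) < lin c (p (P w)) := by
    intro w hw1 hw2
    have := h.orient a b w hab hw1 hw2
    have h3 := hl (p (P w) - p (P a))
    rw [lin_sub] at h3
    have h4 : cross (p (P b) - p (P a)) (p (P w) - p (P a))
        = det3 (p (P a)) (p (P b)) (p (P w)) := by
      unfold cross det3; simp
    linarith
  have ax : lin c (p (P a)) < lin c (p (P (l a))) := by
    have := ha0 (l a + m) (by omega) (by omega)
    rwa [h.P_add] at this
  have ay : lin c (p (P a)) < lin c (p (P (f b))) := ha0 (f b) hby (by omega)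
  have e3 : lin c (p (P (l a))) ≤ lin c (p (P (l b))) := by
    rcases hP.eq_or_lt with h1 | h1
    · rw [h1]
    · by_contra hcon
      push Not at hcon
      refine h.quad2 c (by omega : a < f b) hyP (by omega : l b + m < l a + m) (by omega)
        ay ?_ ?_ ?_
      · rw [h.P_add]; exact ax
      · rw [h.P_add]; exact e1
      · rw [h.P_add, h.P_add]; exact hcon
  have e4 : lin c (p (P (f b))) ≤ lin c (p (P (f a))) := by
    rcases hQ.eq_or_lt with h1 | h1
    · rw [h1]
    · by_contra hcon
      push Not at hcon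
      refine h.quad2 c (by omega : a < f b) h1 (by omega : f a < l a + m) (by omega)
        ay ?_ hcon ?_
      · rw [h.P_add]; exact ax
      · rw [h.P_add]; exact e2
  linarith

end Ctx2

end Pool.Agent.H80
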