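import Pool.Agent.H80.CycCount

/-!
The upper bound for sets of points and edges, by induction.
-/

namespace Pool.Agent.H80

variable {V : Type*}

lemma emod_add_case (m i x : ℤ) (hm : 0 < m) (hx : 0 ≤ x) (hx' : x < m) :
    (i + x) % m = i % m + x ∨ (i + x) % m = i % m + x - m := by
  have h1 : 0 ≤ i % m := Int.emod_nonneg _ hm.ne'
  have h2 : i % m < m := Int.emod_lt_of_pos _ hm
  have h3 : (i + x) % m = (i % m + x) % m := by rw [Int.emod_add_emod]
  rw [h3]
  by_cases h : i % m + x < m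
  · left; exact Int.emod_eq_of_lt (by omega) h
  · right
    have : (i % m + x) % m = (i % m + x - m) % m := by rw [Int.sub_emod_right]
    rw [this]
    exact Int.emod_eq_of_lt (by omega) (by omega)

/-- the context for a finite set of points with all degrees at least two -/
lemma exists_ctx [DecidableEq V] (p : V → ℝ × ℝ) (S : Finset V) (E : Set (Sym2 V))
    (hne : S.Nonempty)
    (hS : ∀ v ∈ S, ∃ c : ℝ × ℝ, ∀ w ∈ S, w ≠ v → lin c (p w) < lin c (p v))
    (hdiag : ∀ v, s(v, v) ∉ E)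
    (hdeg : ∀ v ∈ S, ∃ w₁ ∈ S, ∃ w₂ ∈ S, w₁ ≠ w₂ ∧ s(v, w₁) ∈ E ∧ s(v, w₂) ∈ E)
    (hsep : ∀ i j, s(i, j) ∈ E → ∃ c : ℝ × ℝ, ∀ k l, s(k, l) ∈ E → s(k, l) ≠ s(i, j) →
      lin c (p k) + lin c (p l) < lin c (p i) + lin c (p j)) :
    ∃ P : ℤ → V, Ctx (S.card : ℤ) P p E ∧ ∀ v ∈ S, ∃ i, P i = v := by
  obtain ⟨e, he⟩ := exists_ccw S p hne hS
  have hM : 0 < (S.card : ℤ) := by exact_mod_cast hne.card_pos
  have r0 : ∀ i : ℤ, 0 ≤ i % (S.card : ℤ) := fun i => Int.emod_nonneg _ hM.ne'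
  have r1 : ∀ i : ℤ, i % (S.card : ℤ) < S.card := fun i => Int.emod_lt_of_pos _ hM
  let r : ℤ → Fin S.card := fun i => ⟨(i % (S.card : ℤ)).toNat, by
    have h1 := r0 i
    have h2 := r1 i
    omega⟩
  let P : ℤ → V := fun i => (e (r i) : V)
  have hrval : ∀ i, ((r i : ℕ) : ℤ) = i % (S.card : ℤ) := by
    intro i
    have h1 := r0 i
    simp only [r]
    omega
  have hrlt : ∀ i j, r i < r j ↔ i % (S.card : ℤ) < j % (S.card : ℤ) := by
    intro i j
    rw [← hrval, ← hrval, Fin.lt_def]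
    omega
  have hper : ∀ i j, P i = P j ↔ (S.card : ℤ) ∣ i - j := by
    intro i j
    simp only [P]
    rw [Subtype.coe_inj, e.injective.eq_iff, ← Int.modEq_iff_dvd]
    constructor
    · intro h
      have h1 : ((r i : ℕ) : ℤ) = ((r j : ℕ) : ℤ) := by rw [h]
      rw [hrval, hrval] at h1
      exact h1.symm
    · intro h
      apply Fin.ext
      have h1 : ((r i : ℕ) : ℤ) = ((r j : ℕ) : ℤ) := by
        rw [hrval, hrval]; exact h.symm
      exact_mod_cast h1
  have hsurj : ∀ v ∈ S, ∀ a : ℤ, ∃ i, a ≤ i ∧ i < a + S.card ∧ P i = v := by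
    intro v hv a
    let b : Fin S.card := e.symm ⟨v, hv⟩
    have hb : (e b : V) = v := by simp [b]
    let i : ℤ := a + ((b : ℕ) - a) % (S.card : ℤ)
    refine ⟨i, ?_, ?_, ?_⟩
    · have := r0 ((b : ℕ) - a); simp only [i]; omega
    · have := r1 ((b : ℕ) - a); simp only [i]; omega
    · have h1 : P i = P (b : ℕ) := by
        rw [hper]
        have : i - (b : ℕ) = -(S.card * (((b : ℕ) - a) / (S.card : ℤ))) := by
          have := Int.emod_add_mul_ediv ((b : ℕ) - a) (S.card : ℤ)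
          simp only [i]; omega
        rw [this, dvd_neg]; exact dvd_mul_right _ _
      have h2 : r (b : ℕ) = b := by
        apply Fin.ext
        have h3 := hrval (b : ℕ)
        rw [Int.emod_eq_of_lt (by omega) (by have := b.2; omega)] at h3
        exact_mod_cast h3
      rw [h1]
      simp only [P, h2]
      exact hb
  refine ⟨P, ⟨hM, hper, ?_, ?_, ?_, ?_⟩, ?_⟩
  · -- orientation
    intro i j k hij hjk hki
    have c1 := emod_add_case (S.card : ℤ) i (j - i) hM (by omega) (by omega)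
    have c2 := emod_add_case (S.card : ℤ) i (k - i) hM (by omega) (by omega)
    rw [show i + (j - i) = j by ring] at c1
    rw [show i + (k - i) = k by ring] at c2
    have a1 := r0 i
    have a2 := r1 i
    have a3 := r0 j
    have a4 := r1 j
    have a5 := r0 k
    have a6 := r1 k
    have hcases : (i % (S.card : ℤ) < j % (S.card : ℤ) ∧ j % (S.card : ℤ) < k % (S.card : ℤ)) ∨
      (k % (S.card : ℤ) < i % (S.card : ℤ) ∧ i % (S.card : ℤ) < j % (S.card : ℤ)) ∨
      (j % (S.card : ℤ) < k % (S.card : ℤ) ∧ k % (S.card : ℤ) < i % (S.card : ℤ)) := by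
      omega
    rcases hcases with ⟨g1, g2⟩ | ⟨g1, g2⟩ | ⟨g1, g2⟩
    · exact he _ _ _ ((hrlt _ _).2 g1) ((hrlt _ _).2 g2)
    · have := he _ _ _ ((hrlt _ _).2 g1) ((hrlt _ _).2 g2)
      rw [← det3_rot] at this
      exact this
    · have := he _ _ _ ((hrlt _ _).2 g1) ((hrlt _ _).2 g2)
      rw [← det3_rot, ← det3_rot] at this
      exact this
  · intro i; exact hdiag _
  · intro i
    obtain ⟨w₁, hw₁, w₂, hw₂, hne', hE1, hE2⟩ := hdeg (P i) (e (r i)).2
    obtain ⟨j, j1, j2, j3⟩ := hsurj w₁ hw₁ i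
    obtain ⟨k, k1, k2, k3⟩ := hsurj w₂ hw₂ i
    have hji : i ≠ j := by
      rintro rfl
      rw [← j3] at hE1
      exact hdiag _ hE1
    have hki : i ≠ k := by
      rintro rfl
      rw [← k3] at hE2
      exact hdiag _ hE2
    have hjk : j ≠ k := by
      rintro rfl
      exact hne' (j3.symm.trans k3)
    rcases lt_or_gt_of_ne hjk with h | h
    · exact ⟨j, k, by omega, h, by omega, by rw [j3]; exact hE1, by rw [k3]; exact hE2⟩
    · exact ⟨k, j, by omega, h, by omega, by rw [k3]; exact hE2, by rw [j3]; exact hE1⟩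
  · intro i j hE
    obtain ⟨c, hc⟩ := hsep _ _ hE
    exact ⟨c, fun k l hkl hne' => hc _ _ hkl hne'⟩
  · intro v hv
    obtain ⟨i, _, _, h⟩ := hsurj v hv 0
    exact ⟨i, h⟩

theorem upper_deg [DecidableEq V] (p : V → ℝ × ℝ) (S : Finset V) (EF : Finset (Sym2 V))
    (hcard : 4 ≤ S.card)
    (hS : ∀ v ∈ S, ∃ c : ℝ × ℝ, ∀ w ∈ S, w ≠ v → lin c (p w) < lin c (p v))
    (hE : ∀ u v, s(u, v) ∈ EF → u ≠ v ∧ u ∈ S ∧ v ∈ S)
    (hsep : ∀ i j, s(i, j) ∈ EF → ∃ c : ℝ × ℝ, ∀ k l, s(k, l) ∈ EF → s(k, l) ≠ s(i, j) →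
      lin c (p k) + lin c (p l) < lin c (p i) + lin c (p j))
    (hdeg : ∀ v ∈ S, 2 ≤ (EF.filter (fun e => v ∈ e)).card) :
    EF.card + 4 ≤ 2 * S.card := by
  have hne : S.Nonempty := Finset.card_pos.1 (by omega)
  obtain ⟨P, hP, hsurj⟩ := exists_ctx p S (↑EF : Set (Sym2 V)) hne hS
    (fun v hv => (hE v v (by exact_mod_cast hv)).1 rfl)
    (by
      intro v hv
      have h1 : 1 < (EF.filter (fun e => v ∈ e)).card := by have := hdeg v hv; omega
      obtain ⟨e₁, he₁, e₂, he₂, hne'⟩ := Finset.one_lt_card.1 h1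
      rw [Finset.mem_filter] at he₁ he₂
      obtain ⟨w₁, rfl⟩ := he₁.2
      obtain ⟨w₂, rfl⟩ := he₂.2
      refine ⟨w₁, (hE _ _ he₁.1).2.2, w₂, (hE _ _ he₂.1).2.2, ?_, ?_, ?_⟩
      · rintro rfl; exact hne' rfl
      · exact_mod_cast he₁.1
      · exact_mod_cast he₂.1)
    (by
      intro i j hij
      obtain ⟨c, hc⟩ := hsep i j (by exact_mod_cast hij)
      exact ⟨c, fun k l hkl hne' => hc k l (by exact_mod_cast hkl) hne'⟩)
  obtain ⟨f, hf⟩ := hP.exists_f
  obtain ⟨l, hl⟩ := hP.exists_l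
  have h : Ctx2 (S.card : ℤ) P p (↑EF : Set (Sym2 V)) f l :=
    { toCtx := hP
      f_lt := fun i => (hf i).1
      f_mem := fun i => (hf i).2.1
      f_min := fun i => (hf i).2.2
      l_lt := fun i => (hl i).1
      l_mem := fun i => (hl i).2.1
      l_max := fun i => (hl i).2.2 }
  have := h.card_le (by omega) EF rfl (by
    intro e he
    induction e using Sym2.ind with
    | _ u v =>
      obtain ⟨_, hu, hv⟩ := hE u v he
      obtain ⟨i, rfl⟩ := hsurj u hu
      obtain ⟨j, rfl⟩ := hsurj v hv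
      exact ⟨i, j, rfl⟩)
  omega

theorem upper_aux [DecidableEq V] (p : V → ℝ × ℝ) : ∀ (n : ℕ) (S : Finset V)
    (EF : Finset (Sym2 V)), S.card = n + 4 →
    (∀ v ∈ S, ∃ c : ℝ × ℝ, ∀ w ∈ S, w ≠ v → lin c (p w) < lin c (p v)) →
    (∀ u v, s(u, v) ∈ EF → u ≠ v ∧ u ∈ S ∧ v ∈ S) →
    (∀ i j, s(i, j) ∈ EF → ∃ c : ℝ × ℝ, ∀ k l, s(k, l) ∈ EF → s(k, l) ≠ s(i, j) →
      lin c (p k) + lin c (p l) < lin c (p i) + lin c (p j)) →
    EF.card + 4 ≤ 2 * S.card := by
  intro n
  induction n with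
  | zero =>
    intro S EF hcard hS hE hsep
    by_cases hdeg : ∀ v ∈ S, 2 ≤ (EF.filter (fun e => v ∈ e)).card
    · exact upper_deg p S EF (by omega) hS hE hsep hdeg
    · push Not at hdeg
      obtain ⟨v, hv, hdv⟩ := hdeg
      have h1 := Finset.card_filter_add_card_filter_not (s := EF) (fun e => v ∈ e)
      have h2 : EF.filter (fun e => ¬ v ∈ e) ⊆
          (S.erase v).offDiag.image (fun x : V × V => s(x.1, x.2)) := by
        intro e he
        rw [Finset.mem_filter] at he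
        induction e using Sym2.ind with
        | _ a b =>
          obtain ⟨hab, ha, hb⟩ := hE a b he.1
          have hva : a ≠ v := fun h => he.2 (by rw [h]; simp)
          have hvb : b ≠ v := fun h => he.2 (by rw [h]; simp)
          rw [Finset.mem_image]
          refine ⟨(a, b), ?_, rfl⟩
          rw [Finset.mem_offDiag]
          exact ⟨Finset.mem_erase.2 ⟨hva, ha⟩, Finset.mem_erase.2 ⟨hvb, hb⟩, hab⟩
      have h3 := Finset.card_le_card h2
      have h4 := Sym2.card_image_offDiag (S.erase v)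
      have h5 : (S.erase v).card = 3 := by rw [Finset.card_erase_of_mem hv]; omega
      rw [h5] at h4
      have h6 : Nat.choose 3 2 = 3 := by decide
      rw [h6] at h4
      have h7 : (Finset.image (fun x : V × V => s(x.1, x.2)) (S.erase v).offDiag).card = 3 := h4
      omega
  | succ n ih =>
    intro S EF hcard hS hE hsep
    by_cases hdeg : ∀ v ∈ S, 2 ≤ (EF.filter (fun e => v ∈ e)).card
    · exact upper_deg p S EF (by omega) hS hE hsep hdeg
    · push Not at hdeg
      obtain ⟨v, hv, hdv⟩ := hdeg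
      have h1 := Finset.card_filter_add_card_filter_not (s := EF) (fun e => v ∈ e)
      have h2 : (S.erase v).card = n + 4 := by rw [Finset.card_erase_of_mem hv]; omega
      have h3 := ih (S.erase v) (EF.filter (fun e => ¬ v ∈ e)) h2
        (by
          intro w hw
          obtain ⟨c, hc⟩ := hS w (Finset.mem_of_mem_erase hw)
          exact ⟨c, fun u hu => hc u (Finset.mem_of_mem_erase hu)⟩)
        (by
          intro a b hab
          rw [Finset.mem_filter] at hab
          obtain ⟨h3, ha, hb⟩ := hE a b hab.1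
          have hva : a ≠ v := fun h => hab.2 (by rw [h]; simp)
          have hvb : b ≠ v := fun h => hab.2 (by rw [h]; simp)
          exact ⟨h3, Finset.mem_erase.2 ⟨hva, ha⟩, Finset.mem_erase.2 ⟨hvb, hb⟩⟩)
        (by
          intro i j hij
          rw [Finset.mem_filter] at hij
          obtain ⟨c, hc⟩ := hsep i j hij.1
          exact ⟨c, fun k l hkl hne => hc k l (Finset.mem_of_mem_filter _ hkl) hne⟩)
      omega

end Pool.Agent.H80
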