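import Pool.Agent.H80.CycCore

/-!
Minimal arcs, the gap lemma and the four doubly owned edges.
-/

namespace Pool.Agent.H80

variable {V : Type*}

/-- `[x, f x]` is a minimal arc: it contains no other edge. -/
def Mn (P : ℤ → V) (E : Set (Sym2 V)) (f : ℤ → ℤ) (x : ℤ) : Prop :=
  ∀ i j, x ≤ i → i < j → j ≤ f x → s(P i, P j) ∈ E → i = x ∧ j = f x

/-- `x'` is the next start of a minimal arc after `x`. -/
def Nxt (P : ℤ → V) (E : Set (Sym2 V)) (f : ℤ → ℤ) (x x' : ℤ) : Prop :=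
  x < x' ∧ Mn P E f x' ∧ ∀ z, x < z → Mn P E f z → x' ≤ z

namespace Ctx2

variable {m : ℤ} {P : ℤ → V} {p : V → ℝ × ℝ} {E : Set (Sym2 V)} {f l : ℤ → ℤ}

lemma mn_lf (h : Ctx2 m P p E f l) {x : ℤ} (hx : Mn P E f x) : l (f x) = x := by
  have h1 : s(P (f x), P x) ∈ E := by rw [Sym2.eq_swap]; exact h.f_mem x
  have h2 := h.l_max (f x) x (h.f_lt x) h1
  have h3 := h.l_mem (f x)
  have h4 := h.l_lt (f x)
  have h5 := hx (l (f x)) (f x) h2 h4 le_rfl (by rw [Sym2.eq_swap]; exact h3)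
  exact h5.1

lemma exists_mn_aux (h : Ctx2 m P p E f l) : ∀ (n : ℕ) (i j : ℤ), i < j → j - i ≤ n →
    s(P i, P j) ∈ E → ∃ x, i ≤ x ∧ f x ≤ j ∧ Mn P E f x := by
  intro n
  induction n with
  | zero => intro i j hij hn; exfalso; push_cast at hn; omega
  | succ n ih =>
    intro i j hij hn hE
    have h1 := h.f_min i j hij hE
    by_cases hM : Mn P E f i
    · exact ⟨i, le_rfl, h1, hM⟩
    · unfold Mn at hM
      push Not at hM
      obtain ⟨i', j', h2, h3, h4, h5, h6⟩ := hM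
      have h7 : j' - i' < f i - i := by
        by_cases hi : i' = i
        · have := h6 hi
          omega
        · omega
      obtain ⟨x, hx1, hx2, hx3⟩ := ih i' j' h3 (by push_cast at hn ⊢; omega) h5
      exact ⟨x, by omega, by omega, hx3⟩

lemma exists_mn (h : Ctx2 m P p E f l) {i j : ℤ} (hij : i < j) (hE : s(P i, P j) ∈ E) :
    ∃ x, i ≤ x ∧ f x ≤ j ∧ Mn P E f x :=
  h.exists_mn_aux (j - i).toNat i j hij (by omega) hE

lemma mn_mono (h : Ctx2 m P p E f l) {x x' : ℤ} (hx : Mn P E f x) (hlt : x < x') :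
    f x < f x' := by
  by_contra hcon
  have := hx x' (f x') hlt.le (h.f_lt x') (by omega) (h.f_mem x')
  omega

lemma mn_add (h : Ctx2 m P p E f l) {x : ℤ} (hx : Mn P E f x) : Mn P E f (x + m) := by
  intro i j h1 h2 h3 h4
  rw [h.f_add] at h3 ⊢
  have := hx (i - m) (j - m) (by omega) (by omega) (by omega) (by rw [h.P_sub, h.P_sub]; exact h4)
  omega

lemma mn_sub (h : Ctx2 m P p E f l) {x : ℤ} (hx : Mn P E f x) : Mn P E f (x - m) := by
  intro i j h1 h2 h3 h4
  rw [h.f_sub] at h3 ⊢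
  have := hx (i + m) (j + m) (by omega) (by omega) (by omega) (by rw [h.P_add, h.P_add]; exact h4)
  omega

lemma mn_congr (h : Ctx2 m P p E f l) {x y : ℤ} (hd : m ∣ x - y) (hy : Mn P E f y) :
    Mn P E f x := by
  intro i j h1 h2 h3 h4
  have hf := h.f_congr hd
  have e1 : P (i - (x - y)) = P i := (h.per _ _).2 (by
    have : i - (x - y) - i = -(x - y) := by ring
    rw [this]; exact (dvd_neg).2 hd)
  have e2 : P (j - (x - y)) = P j := (h.per _ _).2 (by
    have : j - (x - y) - j = -(x - y) := by ring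
    rw [this]; exact (dvd_neg).2 hd)
  have := hy (i - (x - y)) (j - (x - y)) (by omega) (by omega) (by omega)
    (by rw [e1, e2]; exact h4)
  omega

/-- minimal arcs of the arc from `u` to its first neighbour -/
lemma f_ge (h : Ctx2 m P p E f l) {u s : ℤ} (hs : Mn P E f s)
    (hus : ∀ z, u ≤ z → Mn P E f z → s ≤ z) : f s ≤ f u := by
  obtain ⟨z, h1, h2, h3⟩ := h.exists_mn (h.f_lt u) (h.f_mem u)
  have h4 := hus z h1 h3
  rcases h4.lt_or_eq with h5 | h5
  · have := h.mn_mono hs h5; omega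
  · rw [h5]; exact h2

lemma l_le (h : Ctx2 m P p E f l) {b s : ℤ}
    (hs : ∀ z, f z ≤ b → Mn P E f z → z ≤ s) : l b ≤ s := by
  obtain ⟨z, h1, h2, h3⟩ := h.exists_mn (h.l_lt b) (by rw [Sym2.eq_swap]; exact h.l_mem b)
  exact h1.trans (hs z h2 h3)

lemma exists_nxt (h : Ctx2 m P p E f l) {x : ℤ} (hx : Mn P E f x) :
    ∃ x', Nxt P E f x x' := by
  have : ∃ x', (x < x' ∧ Mn P E f x') ∧ ∀ z, (x < z ∧ Mn P E f z) → x' ≤ z := by
    apply Int.exists_least_of_bdd
    · exact ⟨x, fun z hz => hz.1.le⟩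
    · exact ⟨x + m, by have := h.mpos; omega, h.mn_add hx⟩
  obtain ⟨x', h1, h2⟩ := this
  exact ⟨x', h1.1, h1.2, fun z hz hz' => h2 z ⟨hz, hz'⟩⟩

lemma nxt_add (h : Ctx2 m P p E f l) {x x' : ℤ} (hx : Nxt P E f x x') :
    Nxt P E f (x + m) (x' + m) := by
  obtain ⟨h1, h2, h3⟩ := hx
  refine ⟨by omega, h.mn_add h2, fun z hz hz' => ?_⟩
  have := h3 (z - m) (by omega) (h.mn_sub hz')
  omega

lemma P_ne (h : Ctx2 m P p E f l) {a b : ℤ} (hab : a < b) (hb : b < a + m) : P a ≠ P b := by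
  intro heq
  obtain ⟨t, ht⟩ := (h.per a b).1 heq
  have hm := h.mpos
  rcases lt_trichotomy t 0 with ht0 | ht0 | ht0
  · nlinarith
  · subst ht0; omega
  · nlinarith

/-- the first and the last edge of a vertex differ -/
lemma FL_ne (h : Ctx2 m P p E f l) (i : ℤ) : s(P i, P (f i)) ≠ s(P i, P (l i)) := by
  intro heq
  have h1 := h.fl i
  have h2 := h.f_lt i
  have h3 := h.l_lt i
  have hne : P (f i) ≠ P (l i + m) := h.P_ne h1 (by omega)
  rw [h.P_add] at hne
  rw [Sym2.eq_iff] at heq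
  rcases heq with ⟨_, h⟩ | ⟨h4, h5⟩
  · exact hne h
  · exact hne (h5.trans h4)

lemma eF_congr (h : Ctx2 m P p E f l) {i j : ℤ} (hP : P i = P j) :
    s(P i, P (f i)) = s(P j, P (f j)) := by
  have h1 := (h.per i j).1 hP
  have h2 := h.f_congr h1
  have h3 : P (f i) = P (f j) := (h.per _ _).2 (by
    have : f i - f j = i - j := by omega
    rw [this]; exact h1)
  rw [hP, h3]

lemma eL_congr (h : Ctx2 m P p E f l) {i j : ℤ} (hP : P i = P j) :
    s(P i, P (l i)) = s(P j, P (l j)) := by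
  have h1 := (h.per i j).1 hP
  have h2 := h.l_congr h1
  have h3 : P (l i) = P (l j) := (h.per _ _).2 (by
    have : l i - l j = i - j := by omega
    rw [this]; exact h1)
  rw [hP, h3]

lemma D_inj (h : Ctx2 m P p E f l) {x y : ℤ} (hx : l (f x) = x) (_hy : l (f y) = y)
    (he : s(P x, P (f x)) = s(P y, P (f y))) : P x = P y := by
  rcases Sym2.eq_iff.1 he with ⟨h1, _⟩ | ⟨h1, h2⟩
  · exact h1
  · exfalso
    apply h.FL_ne (f x)
    rw [hx, h.eF_congr h2, ← he, Sym2.eq_swap]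

lemma D_ne_MF (h : Ctx2 m P p E f l) {x u : ℤ} (hx : l (f x) = x) (hu : f (f u) = u + m) :
    s(P x, P (f x)) ≠ s(P u, P (f u)) := by
  intro he
  apply h.FL_ne (f x)
  rcases Sym2.eq_iff.1 he with ⟨h1, h2⟩ | ⟨h1, h2⟩
  · rw [h.eF_congr h2, hu, h.P_add, hx, h1, h2]
  · rw [h.eF_congr h2, hx, ← he, Sym2.eq_swap]

lemma D_ne_ML (h : Ctx2 m P p E f l) {x u : ℤ} (_hx : l (f x) = x) (hu : l (l u) = u - m) :
    s(P x, P (f x)) ≠ s(P u, P (l u)) := by
  intro he
  apply h.FL_ne x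
  rcases Sym2.eq_iff.1 he with ⟨h1, h2⟩ | ⟨h1, h2⟩
  · rw [h.eL_congr h1, he]
  · rw [h.eL_congr h1, he, hu, h.P_sub, Sym2.eq_swap]

lemma MF_ne_ML (h : Ctx2 m P p E f l) {x u : ℤ} (_hx : f (f x) = x + m) (hu : l (l u) = u - m) :
    s(P x, P (f x)) ≠ s(P u, P (l u)) := by
  intro he
  apply h.FL_ne x
  rcases Sym2.eq_iff.1 he with ⟨h1, h2⟩ | ⟨h1, h2⟩
  · rw [h.eL_congr h1, he]
  · rw [h.eL_congr h1, he, hu, h.P_sub, Sym2.eq_swap]

/-- mirror image -/
lemma mirror (h : Ctx2 m P p E f l) :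
    Ctx2 m (fun i => P (-i)) (fun v => (-(p v).1, (p v).2)) E (fun i => - l (-i))
      (fun i => - f (-i)) where
  mpos := h.mpos
  per := by
    intro i j
    rw [h.per]
    have : -i - -j = -(i - j) := by ring
    rw [this, dvd_neg]
  orient := by
    intro i j k hij hjk hki
    have := h.orient (-k) (-j) (-i) (by omega) (by omega) (by omega)
    unfold det3 at this ⊢
    dsimp only
    linarith
  irr := by intro i; exact h.irr (-i)
  deg2 := by
    intro i
    obtain ⟨j, k, h1, h2, h3, h4, h5⟩ := h.deg2 (-i)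
    refine ⟨-k + m, -j + m, by omega, by omega, by omega, ?_, ?_⟩
    · have : -(-k + m) = k - m := by ring
      rw [this, h.P_sub]; exact h5
    · have : -(-j + m) = j - m := by ring
      rw [this, h.P_sub]; exact h4
  sep := by
    intro i j hE
    obtain ⟨c, hc⟩ := h.sep (-i) (-j) hE
    refine ⟨(-c.1, c.2), fun k l' hkl hne => ?_⟩
    have := hc (-k) (-l') hkl hne
    unfold lin at this ⊢
    dsimp only
    linarith
  f_lt := by intro i; have := h.l_lt (-i); omega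
  f_mem := by intro i; have := h.l_mem (-i); rw [neg_neg]; exact this
  f_min := by
    intro i k hk hE
    have := h.l_max (-i) (-k) (by omega) hE
    omega
  l_lt := by intro i; have := h.f_lt (-i); omega
  l_mem := by intro i; have := h.f_mem (-i); rw [neg_neg]; exact this
  l_max := by
    intro i k hk hE
    have := h.f_min (-i) (-k) (by omega) hE
    omega

end Ctx2

end Pool.Agent.H80
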