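import Pool.Agent.H80.StrongConvexDim

/-!
Configurations of points and edges witnessed by linear functionals, and the graphs they give.
-/

namespace Pool.Agent.H80

lemma convex_halfspace_insert (φ : (ℝ × ℝ) →ₗ[ℝ] ℝ) (x : ℝ × ℝ) :
    Convex ℝ {y : ℝ × ℝ | φ y < φ x ∨ y = x} := by
  intro y hy z hz a b ha hb hab
  simp only [Set.mem_ofPred_eq] at hy hz ⊢
  have key : φ x - φ (a • y + b • z) = a * (φ x - φ y) + b * (φ x - φ z) := by
    rw [map_add, map_smul, map_smul, smul_eq_mul, smul_eq_mul]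
    linear_combination (-(φ x)) * hab
  rcases hy with hy | rfl
  · rcases hz with hz | rfl
    · left
      rcases ha.eq_or_lt with h0 | h0
      · have hb1 : b = 1 := by linarith
        have ha1 : a = 0 := h0.symm
        rw [ha1, hb1, zero_smul, one_smul, zero_add]
        exact hz
      · have h1 := mul_pos h0 (sub_pos.2 hy)
        have h2 := mul_nonneg hb (sub_pos.2 hz).le
        linarith
    · rcases ha.eq_or_lt with h0 | h0
      · right
        have hb1 : b = 1 := by linarith
        rw [← h0, hb1]; simp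
      · left
        have h1 := mul_pos h0 (sub_pos.2 hy)
        linarith
  · rcases hz with hz | rfl
    · rcases hb.eq_or_lt with h0 | h0
      · right
        have ha1 : a = 1 := by linarith
        rw [← h0, ha1]; simp
      · left
        have h1 := mul_pos h0 (sub_pos.2 hz)
        linarith
    · right
      rw [← add_smul, hab, one_smul]

lemma mem_extremePoints_of_functional {X : Set (ℝ × ℝ)} {x : ℝ × ℝ} (hx : x ∈ X)
    (φ : (ℝ × ℝ) →ₗ[ℝ] ℝ) (h : ∀ y ∈ X, y ≠ x → φ y < φ x) :
    x ∈ (convexHull ℝ X).extremePoints ℝ := by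
  rw [(convex_convexHull ℝ X).mem_extremePoints_iff_convex_sdiff]
  refine ⟨subset_convexHull ℝ X hx, ?_⟩
  have hsub : convexHull ℝ X ⊆ {y : ℝ × ℝ | φ y < φ x ∨ y = x} := by
    apply convexHull_min _ (convex_halfspace_insert φ x)
    intro y hy
    by_cases hyx : y = x
    · right; exact hyx
    · left; exact h y hy hyx
  have heq : convexHull ℝ X \ {x} = convexHull ℝ X ∩ {y | φ y < φ x} := by
    ext y
    simp only [Set.mem_sdiff, Set.mem_singleton_iff, Set.mem_inter_iff, Set.mem_ofPred_eq]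
    constructor
    · rintro ⟨h1, h2⟩
      refine ⟨h1, ?_⟩
      rcases hsub h1 with h3 | h3
      · exact h3
      · exact absurd h3 h2
    · rintro ⟨h1, h2⟩
      refine ⟨h1, ?_⟩
      rintro rfl
      exact lt_irrefl _ h2
  rw [heq]
  exact (convex_convexHull ℝ X).inter (convex_halfSpace_lt φ.isLinear _)

/-- A configuration of points `p` and edges `a e, b e`, with every point and every edge sum
strictly separated from the others by a linear functional. -/
structure FC {V E : Type*} (p : V → ℝ × ℝ) (a b : E → V) : Prop where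
  vert : ∀ v, ∃ φ : (ℝ × ℝ) →ₗ[ℝ] ℝ, ∀ w, w ≠ v → φ (p w) < φ (p v)
  edge : ∀ e, ∃ φ : (ℝ × ℝ) →ₗ[ℝ] ℝ, ∀ e', e' ≠ e →
    φ (p (a e') + p (b e')) < φ (p (a e) + p (b e))
  ne : ∀ e, a e ≠ b e

namespace FC

variable {V E V' E' : Type*}

lemma restrict {p : V → ℝ × ℝ} {a b : E → V} (h : FC p a b) (f : V' → V)
    (hf : Function.Injective f) (g : E' → E) (hg : Function.Injective g) (a' b' : E' → V')
    (ha : ∀ e, f (a' e) = a (g e)) (hb : ∀ e, f (b' e) = b (g e)) :
    FC (p ∘ f) a' b' where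
  vert v := by
    obtain ⟨φ, hφ⟩ := h.vert (f v)
    exact ⟨φ, fun w hw => hφ (f w) (fun he => hw (hf he))⟩
  edge e := by
    obtain ⟨φ, hφ⟩ := h.edge (g e)
    refine ⟨φ, fun e' he' => ?_⟩
    have := hφ (g e') (fun he => he' (hg he))
    simp only [Function.comp, ha, hb]
    exact this
  ne e := by
    intro he
    apply h.ne (g e)
    rw [← ha, ← hb, he]

theorem exists_graph {n : ℕ} {p : Fin n → ℝ × ℝ} {a b : E → Fin n} (h : FC p a b)
    [Fintype E] : ∃ G : SimpleGraph (Fin n), StrongConvexDimTwo G ∧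
      G.edgeSet.ncard = Fintype.card E := by
  classical
  let G : SimpleGraph (Fin n) := SimpleGraph.fromEdgeSet (Set.range fun e => s(a e, b e))
  have hG : G.edgeSet = Set.range fun e => s(a e, b e) := by
    simp only [G, SimpleGraph.edgeSet_fromEdgeSet]
    ext x
    simp only [Set.mem_sdiff]
    constructor
    · exact fun h => h.1
    · rintro ⟨e, rfl⟩
      refine ⟨⟨e, rfl⟩, ?_⟩
      simp only [Sym2.mem_diagSet, Sym2.mk_isDiag_iff]
      exact h.ne e
  have hmid : ∀ e, edgeMidpoint p s(a e, b e) = (1 / 2 : ℝ) • (p (a e) + p (b e)) := by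
    intro e
    have : edgeMidpoint p s(a e, b e) = midpoint ℝ (p (a e)) (p (b e)) := rfl
    rw [this, midpoint_eq_smul_add, invOf_eq_inv]
    norm_num
  have hinj : Function.Injective p := by
    intro v w hvw
    by_contra hne
    obtain ⟨φ, hφ⟩ := h.vert v
    have := hφ w (Ne.symm hne)
    rw [hvw] at this
    exact lt_irrefl _ this
  have hsum : ∀ e e', p (a e) + p (b e) = p (a e') + p (b e') → e = e' := by
    intro e e' he
    by_contra hne
    obtain ⟨φ, hφ⟩ := h.edge e
    have := hφ e' (Ne.symm hne)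
    rw [he] at this
    exact lt_irrefl _ this
  have hsm : ∀ x y : ℝ × ℝ, (1 / 2 : ℝ) • x = (1 / 2 : ℝ) • y → x = y := by
    intro x y hxy
    have : (2 : ℝ) • ((1 / 2 : ℝ) • x) = (2 : ℝ) • ((1 / 2 : ℝ) • y) := by rw [hxy]
    simpa [smul_smul] using this
  refine ⟨G, ⟨p, hinj, ?_, ?_, ?_, ?_⟩, ?_⟩
  · rw [hG]
    rintro _ ⟨e, rfl⟩ _ ⟨e', rfl⟩ hee
    simp only [hmid] at hee
    rw [hsum e e' (hsm _ _ hee)]
  · rw [hG]
    rintro _ ⟨e, rfl⟩ v hv
    simp only [hmid] at hv
    obtain ⟨φ, hφ⟩ := h.vert v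
    have h1 : φ (p v) = 1 / 2 * (φ (p (a e)) + φ (p (b e))) := by
      rw [← hv, map_smul, map_add, smul_eq_mul]
    by_cases hav : a e = v
    · by_cases hbv : b e = v
      · exact h.ne e (hav.trans hbv.symm)
      · have h2 := hφ _ hbv
        rw [hav] at h1
        linarith
    · by_cases hbv : b e = v
      · have h2 := hφ _ hav
        rw [hbv] at h1
        linarith
      · have h2 := hφ _ hav
        have h3 := hφ _ hbv
        linarith
  · rintro _ ⟨v, rfl⟩
    obtain ⟨φ, hφ⟩ := h.vert v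
    refine mem_extremePoints_of_functional ⟨v, rfl⟩ φ ?_
    rintro _ ⟨w, rfl⟩ hw
    exact hφ w (fun he => hw (by rw [he]))
  · rw [hG]
    rintro _ ⟨_, ⟨e, rfl⟩, rfl⟩
    obtain ⟨φ, hφ⟩ := h.edge e
    refine mem_extremePoints_of_functional ⟨_, ⟨e, rfl⟩, rfl⟩ φ ?_
    rintro _ ⟨_, ⟨e', rfl⟩, rfl⟩ hne
    have h1 := hφ e' (fun he => hne (by rw [he]))
    simp only [hmid, map_smul, smul_eq_mul]
    linarith
  · rw [hG, ← Set.image_univ, Set.ncard_image_of_injective, Set.ncard_univ, Nat.card_eq_fintype_card]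
    intro e e' he
    simp only at he
    apply hsum
    have h1 : edgeMidpoint p s(a e, b e) = edgeMidpoint p s(a e', b e') := by rw [he]
    rw [hmid, hmid] at h1
    exact hsm _ _ h1

theorem exists_graph' {p : V → ℝ × ℝ} {a b : E → V} (h : FC p a b) [Fintype V] [Fintype E] :
    ∃ G : SimpleGraph (Fin (Fintype.card V)), StrongConvexDimTwo G ∧
      G.edgeSet.ncard = Fintype.card E := by
  classical
  let e := Fintype.equivFin V
  have h' : FC (p ∘ e.symm) (fun x => e (a x)) (fun x => e (b x)) :=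
    h.restrict e.symm e.symm.injective id Function.injective_id _ _ (by simp) (by simp)
  exact h'.exists_graph

theorem le_gss {p : V → ℝ × ℝ} {a b : E → V} (h : FC p a b) [Fintype V] [Fintype E] :
    Fintype.card E ≤ gss (Fintype.card V) := by
  obtain ⟨G, hG, hcard⟩ := h.exists_graph'
  unfold gss
  refine le_csSup ?_ ⟨G, hG, hcard⟩
  refine ⟨Nat.card (Sym2 (Fin (Fintype.card V))), ?_⟩
  rintro k ⟨G', _, rfl⟩
  rw [← Set.ncard_univ]
  exact Set.ncard_le_ncard (Set.subset_univ _) (Set.toFinite _)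

end FC

end Pool.Agent.H80
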