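import Mathlib

/-!
Strong convex dimension 2: the definitions of the problem.
-/

namespace Pool.Agent.H80

/-- A set of points of the plane is in strictly convex position if every one of its points is a
vertex (an extreme point) of its convex hull. -/
def StrictlyConvexPosition (X : Set (ℝ × ℝ)) : Prop :=
  ∀ x ∈ X, x ∈ (convexHull ℝ X).extremePoints ℝ

/-- The midpoint of the straight segment joining the images of the two ends of `e`. -/
noncomputable def edgeMidpoint {V : Type*} (f : V → ℝ × ℝ) : Sym2 V → ℝ × ℝ :=
  Sym2.lift ⟨fun u v => midpoint ℝ (f u) (f v), fun u v => midpoint_comm (R := ℝ) (f u) (f v)⟩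

/-- `f` is a drawing of `G` in which the vertices are in strictly convex position and the edge
midpoints are in strictly convex position. -/
structure IsStrongDrawing {V : Type*} (G : SimpleGraph V) (f : V → ℝ × ℝ) : Prop where
  /-- different vertices have different images -/
  inj : Function.Injective f
  /-- no two edge midpoints coincide -/
  midpoints_inj : Set.InjOn (edgeMidpoint f) G.edgeSet
  /-- no edge midpoint coincides with a vertex -/
  midpoints_ne : ∀ e ∈ G.edgeSet, ∀ v, edgeMidpoint f e ≠ f v
  /-- the vertices are in strictly convex position -/
  vertices_convex : StrictlyConvexPosition (Set.range f)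
  /-- the edge midpoints are in strictly convex position -/
  midpoints_convex : StrictlyConvexPosition (edgeMidpoint f '' G.edgeSet)

/-- The class of graphs of strong convex dimension 2. -/
def StrongConvexDimTwo {V : Type*} (G : SimpleGraph V) : Prop :=
  ∃ f : V → ℝ × ℝ, IsStrongDrawing G f

/-- The maximum number of edges of a graph on `n` vertices of strong convex dimension 2. -/
noncomputable def gss (n : ℕ) : ℕ :=
  sSup {k | ∃ G : SimpleGraph (Fin n), StrongConvexDimTwo G ∧ G.edgeSet.ncard = k}

end Pool.Agent.H80
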