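import Pool.Agent.H80.FunConfig

/-!
A drawing with three clusters, cyclically matched, and three star centres.
-/

namespace Pool.Agent.H80

namespace Tri

/-- a linear map of order three -/
def R : (ℝ × ℝ) →ₗ[ℝ] (ℝ × ℝ) :=
  LinearMap.prod (-(LinearMap.snd ℝ ℝ ℝ)) (LinearMap.fst ℝ ℝ ℝ - LinearMap.snd ℝ ℝ ℝ)

lemma R_apply (p : ℝ × ℝ) : R p = (-p.2, p.1 - p.2) := rfl

/-- the powers of `R` -/
def rot (i : Fin 3) : (ℝ × ℝ) →ₗ[ℝ] (ℝ × ℝ) :=
  match i with
  | 0 => LinearMap.id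
  | 1 => R
  | 2 => R ∘ₗ R

lemma rot_zero (p : ℝ × ℝ) : rot 0 p = p := rfl
lemma rot_one (p : ℝ × ℝ) : rot 1 p = (-p.2, p.1 - p.2) := rfl
lemma rot_two (p : ℝ × ℝ) : rot 2 p = (p.2 - p.1, -p.1) := by
  change R (R p) = _
  rw [R_apply, R_apply]
  ext
  · simp
  · simp only; ring

lemma rot_neg_rot (i j : Fin 3) (x : ℝ × ℝ) : rot (-i) (rot j x) = rot (j - i) x := by
  fin_cases i <;> fin_cases j <;>
  · simp only [Fin.reduceFinMk, Fin.zero_eta, Fin.isValue, Fin.mk_one, neg_zero, sub_zero,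
      zero_sub, sub_self, show (-1 : Fin 3) = 2 from rfl, show (-2 : Fin 3) = 1 from rfl,
      show (2 - 1 : Fin 3) = 1 from rfl, show (1 - 2 : Fin 3) = 2 from rfl]
    simp only [rot_zero, rot_one, rot_two]
    try (ext <;> simp only <;> ring)

/-- the linear functional with given coefficients -/
def lf (c : ℝ × ℝ) : (ℝ × ℝ) →ₗ[ℝ] ℝ := c.1 • LinearMap.fst ℝ ℝ ℝ + c.2 • LinearMap.snd ℝ ℝ ℝ

lemma lf_apply (c x : ℝ × ℝ) : lf c x = c.1 * x.1 + c.2 * x.2 := rfl

/-- kinds of vertices -/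
inductive VK (I : Type) : Type
  | x : VK I
  | u : VK I
  | v (t : I) : VK I

/-- kinds of edges -/
inductive EK (I : Type) : Type
  | s (t : I) : EK I
  | m (t : I) : EK I
  | pu : EK I
  | q : EK I

variable {I : Type}

/-- the points of the first third -/
noncomputable def base (τ : I → ℝ) : VK I → ℝ × ℝ
  | VK.x => (5, 4)
  | VK.u => (-2, 5)
  | VK.v t => (8 + τ t / 100, (4 * τ t + τ t ^ 2 / 2) / 100)

/-- all points -/
noncomputable def pos (τ : I → ℝ) (w : Fin 3 × VK I) : ℝ × ℝ := rot w.1 (base τ w.2)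

/-- first end -/
def ea : Fin 3 × EK I → Fin 3 × VK I
  | (i, EK.s _) => (i, VK.x)
  | (i, EK.m t) => (i + 1, VK.v t)
  | (i, EK.pu) => (i, VK.x)
  | (i, EK.q) => (i, VK.u)

/-- second end -/
def eb : Fin 3 × EK I → Fin 3 × VK I
  | (i, EK.s t) => (i, VK.v t)
  | (i, EK.m t) => (i + 2, VK.v t)
  | (i, EK.pu) => (i, VK.u)
  | (i, EK.q) => (i + 1, VK.x)

/-- sums of the ends in the first third -/
noncomputable def esum (τ : I → ℝ) : EK I → ℝ × ℝ
  | EK.s t => (13 + τ t / 100, 4 + (4 * τ t + τ t ^ 2 / 2) / 100)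
  | EK.m t => (-(8 + τ t / 100), -((4 * τ t + τ t ^ 2 / 2) / 100))
  | EK.pu => (3, 9)
  | EK.q => (-6, 6)

lemma sum_eq (τ : I → ℝ) (e : Fin 3 × EK I) :
    pos τ (ea e) + pos τ (eb e) = rot e.1 (esum τ e.2) := by
  obtain ⟨i, k⟩ := e
  rcases k with t | t | _ | _ <;> fin_cases i <;>
  · simp only [pos, ea, eb, esum, base, Fin.reduceFinMk, Fin.zero_eta, Fin.isValue, Fin.mk_one,
      zero_add, show (1 + 1 : Fin 3) = 2 from rfl, show (1 + 2 : Fin 3) = 0 from rfl,
      show (2 + 1 : Fin 3) = 0 from rfl, show (2 + 2 : Fin 3) = 1 from rfl,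
      rot_zero, rot_one, rot_two, Prod.mk_add_mk]
    ext <;> simp <;> ring

/-- functionals for the vertices -/
noncomputable def cv (τ : I → ℝ) : VK I → ℝ × ℝ
  | VK.x => (6, 7)
  | VK.u => (-7, 4)
  | VK.v t => (4 + τ t, -1)

/-- functionals for the edges -/
noncomputable def ce (τ : I → ℝ) : EK I → ℝ × ℝ
  | EK.s t => (4 + τ t, -1)
  | EK.m t => (-(4 + τ t), 1)
  | EK.pu => (1, 12)
  | EK.q => (-9, 4)

lemma vert_aux (τ : I → ℝ) (h0 : ∀ t, 0 ≤ τ t) (h1 : ∀ t, τ t ≤ 1) (hinj : Function.Injective τ)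
    (k k' : VK I) (j : Fin 3) (hne : ¬ (j = 0 ∧ k' = k)) :
    lf (cv τ k) (rot j (base τ k')) < lf (cv τ k) (base τ k) := by
  rcases k with _ | _ | t
  · rcases k' with _ | _ | t'
    · fin_cases j
      · exact absurd ⟨rfl, rfl⟩ hne
      · simp [lf_apply, cv, base, rot_one]; norm_num
      · simp [lf_apply, cv, base, rot_two]; norm_num
    · fin_cases j
      · simp [lf_apply, cv, base, rot_zero]; norm_num
      · simp [lf_apply, cv, base, rot_one]; norm_num
      · simp [lf_apply, cv, base, rot_two]; norm_num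
    · have a0 := h0 t'
      have a1 := h1 t'
      have b1 : τ t' ^ 2 ≤ 1 := by nlinarith
      have b0 : 0 ≤ τ t' ^ 2 := sq_nonneg _
      fin_cases j
      · simp [lf_apply, cv, base, rot_zero]; linarith
      · simp [lf_apply, cv, base, rot_one]; linarith
      · simp [lf_apply, cv, base, rot_two]; linarith
  · rcases k' with _ | _ | t'
    · fin_cases j
      · simp [lf_apply, cv, base, rot_zero]; norm_num
      · simp [lf_apply, cv, base, rot_one]; norm_num
      · simp [lf_apply, cv, base, rot_two]; norm_num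
    · fin_cases j
      · exact absurd ⟨rfl, rfl⟩ hne
      · simp [lf_apply, cv, base, rot_one]; norm_num
      · simp [lf_apply, cv, base, rot_two]; norm_num
    · have a0 := h0 t'
      have a1 := h1 t'
      have b1 : τ t' ^ 2 ≤ 1 := by nlinarith
      have b0 : 0 ≤ τ t' ^ 2 := sq_nonneg _
      fin_cases j
      · simp [lf_apply, cv, base, rot_zero]; linarith
      · simp [lf_apply, cv, base, rot_one]; linarith
      · simp [lf_apply, cv, base, rot_two]; linarith
  · have c0 := h0 t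
    have c1 := h1 t
    have d0 : 0 ≤ τ t ^ 2 := sq_nonneg _
    have d1 : τ t ^ 2 ≤ 1 := by nlinarith
    rcases k' with _ | _ | t'
    · fin_cases j
      · simp [lf_apply, cv, base, rot_zero]; nlinarith
      · simp [lf_apply, cv, base, rot_one]; nlinarith
      · simp [lf_apply, cv, base, rot_two]; nlinarith
    · fin_cases j
      · simp [lf_apply, cv, base, rot_zero]; nlinarith
      · simp [lf_apply, cv, base, rot_one]; nlinarith
      · simp [lf_apply, cv, base, rot_two]; nlinarith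
    · have a0 := h0 t'
      have a1 := h1 t'
      have b0 : 0 ≤ τ t' ^ 2 := sq_nonneg _
      have b1 : τ t' ^ 2 ≤ 1 := by nlinarith
      have e0 : 0 ≤ τ t * τ t' := mul_nonneg c0 a0
      have e1 : τ t * τ t' ≤ 1 := by nlinarith
      have g0 : 0 ≤ τ t * τ t' ^ 2 := mul_nonneg c0 b0
      have g1 : τ t * τ t' ^ 2 ≤ 1 := by nlinarith
      fin_cases j
      · have hne' : τ t ≠ τ t' := by
          intro h
          exact hne ⟨rfl, by rw [hinj h]⟩
        have hsq : 0 < (τ t - τ t') ^ 2 := by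
          have := sub_ne_zero.2 hne'
          positivity
        simp [lf_apply, cv, base, rot_zero]; nlinarith
      · simp [lf_apply, cv, base, rot_one]; nlinarith
      · simp [lf_apply, cv, base, rot_two]; nlinarith

lemma edge_aux (τ : I → ℝ) (h0 : ∀ t, 0 ≤ τ t) (h1 : ∀ t, τ t ≤ 1) (hinj : Function.Injective τ)
    (k k' : EK I) (j : Fin 3) (hne : ¬ (j = 0 ∧ k' = k)) :
    lf (ce τ k) (rot j (esum τ k')) < lf (ce τ k) (esum τ k) := by
  have hb : ∀ t, 0 ≤ τ t ∧ τ t ≤ 1 ∧ 0 ≤ τ t ^ 2 ∧ τ t ^ 2 ≤ 1 := by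
    intro t
    have a0 := h0 t
    have a1 := h1 t
    exact ⟨a0, a1, sq_nonneg _, by nlinarith⟩
  have hb2 : ∀ t t', 0 ≤ τ t * τ t' ∧ τ t * τ t' ≤ 1 ∧ 0 ≤ τ t * τ t' ^ 2 ∧
      τ t * τ t' ^ 2 ≤ 1 := by
    intro t t'
    obtain ⟨a0, a1, a2, a3⟩ := hb t
    obtain ⟨b0, b1, b2, b3⟩ := hb t'
    exact ⟨mul_nonneg a0 b0, by nlinarith, mul_nonneg a0 b2, by nlinarith⟩
  have hsq : ∀ t t', t' ≠ t → 0 < (τ t - τ t') ^ 2 := by
    intro t t' hne'
    have : τ t - τ t' ≠ 0 := sub_ne_zero.2 (fun h => hne' (hinj h).symm)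
    positivity
  rcases k with t | t | _ | _
  · obtain ⟨c0, c1, c2, c3⟩ := hb t
    rcases k' with t' | t' | _ | _
    · obtain ⟨a0, a1, a2, a3⟩ := hb t'
      obtain ⟨b0, b1, b2, b3⟩ := hb2 t t'
      fin_cases j
      · have := hsq t t' (fun h => hne ⟨rfl, by rw [h]⟩)
        simp [lf_apply, ce, esum, rot_zero]; nlinarith
      · simp [lf_apply, ce, esum, rot_one]; nlinarith
      · simp [lf_apply, ce, esum, rot_two]; nlinarith
    · obtain ⟨a0, a1, a2, a3⟩ := hb t'
      obtain ⟨b0, b1, b2, b3⟩ := hb2 t t'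
      fin_cases j
      · simp [lf_apply, ce, esum, rot_zero]; nlinarith
      · simp [lf_apply, ce, esum, rot_one]; nlinarith
      · simp [lf_apply, ce, esum, rot_two]; nlinarith
    · fin_cases j
      · simp [lf_apply, ce, esum, rot_zero]; nlinarith
      · simp [lf_apply, ce, esum, rot_one]; nlinarith
      · simp [lf_apply, ce, esum, rot_two]; nlinarith
    · fin_cases j
      · simp [lf_apply, ce, esum, rot_zero]; nlinarith
      · simp [lf_apply, ce, esum, rot_one]; nlinarith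
      · simp [lf_apply, ce, esum, rot_two]; nlinarith
  · obtain ⟨c0, c1, c2, c3⟩ := hb t
    rcases k' with t' | t' | _ | _
    · obtain ⟨a0, a1, a2, a3⟩ := hb t'
      obtain ⟨b0, b1, b2, b3⟩ := hb2 t t'
      fin_cases j
      · simp [lf_apply, ce, esum, rot_zero]; nlinarith
      · simp [lf_apply, ce, esum, rot_one]; nlinarith
      · simp [lf_apply, ce, esum, rot_two]; nlinarith
    · obtain ⟨a0, a1, a2, a3⟩ := hb t'
      obtain ⟨b0, b1, b2, b3⟩ := hb2 t t'
      fin_cases j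
      · have := hsq t t' (fun h => hne ⟨rfl, by rw [h]⟩)
        simp [lf_apply, ce, esum, rot_zero]; nlinarith
      · simp [lf_apply, ce, esum, rot_one]; nlinarith
      · simp [lf_apply, ce, esum, rot_two]; nlinarith
    · fin_cases j
      · simp [lf_apply, ce, esum, rot_zero]; nlinarith
      · simp [lf_apply, ce, esum, rot_one]; nlinarith
      · simp [lf_apply, ce, esum, rot_two]; nlinarith
    · fin_cases j
      · simp [lf_apply, ce, esum, rot_zero]; nlinarith
      · simp [lf_apply, ce, esum, rot_one]; nlinarith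
      · simp [lf_apply, ce, esum, rot_two]; nlinarith
  · rcases k' with t' | t' | _ | _
    · obtain ⟨a0, a1, a2, a3⟩ := hb t'
      fin_cases j
      · simp [lf_apply, ce, esum, rot_zero]; linarith
      · simp [lf_apply, ce, esum, rot_one]; linarith
      · simp [lf_apply, ce, esum, rot_two]; linarith
    · obtain ⟨a0, a1, a2, a3⟩ := hb t'
      fin_cases j
      · simp [lf_apply, ce, esum, rot_zero]; linarith
      · simp [lf_apply, ce, esum, rot_one]; linarith
      · simp [lf_apply, ce, esum, rot_two]; linarith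
    · fin_cases j
      · exact absurd ⟨rfl, rfl⟩ hne
      · simp [lf_apply, ce, esum, rot_one]; norm_num
      · simp [lf_apply, ce, esum, rot_two]; norm_num
    · fin_cases j
      · simp [lf_apply, ce, esum, rot_zero]; norm_num
      · simp [lf_apply, ce, esum, rot_one]; norm_num
      · simp [lf_apply, ce, esum, rot_two]; norm_num
  · rcases k' with t' | t' | _ | _
    · obtain ⟨a0, a1, a2, a3⟩ := hb t'
      fin_cases j
      · simp [lf_apply, ce, esum, rot_zero]; linarith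
      · simp [lf_apply, ce, esum, rot_one]; linarith
      · simp [lf_apply, ce, esum, rot_two]; linarith
    · obtain ⟨a0, a1, a2, a3⟩ := hb t'
      fin_cases j
      · simp [lf_apply, ce, esum, rot_zero]; linarith
      · simp [lf_apply, ce, esum, rot_one]; linarith
      · simp [lf_apply, ce, esum, rot_two]; linarith
    · fin_cases j
      · simp [lf_apply, ce, esum, rot_zero]; norm_num
      · simp [lf_apply, ce, esum, rot_one]; norm_num
      · simp [lf_apply, ce, esum, rot_two]; norm_num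
    · fin_cases j
      · exact absurd ⟨rfl, rfl⟩ hne
      · simp [lf_apply, ce, esum, rot_one]; norm_num
      · simp [lf_apply, ce, esum, rot_two]; norm_num

/-- The full configuration. -/
theorem fc (τ : I → ℝ) (h0 : ∀ t, 0 ≤ τ t) (h1 : ∀ t, τ t ≤ 1) (hinj : Function.Injective τ) :
    FC (pos τ) (ea (I := I)) eb where
  vert v := by
    obtain ⟨i, k⟩ := v
    refine ⟨lf (cv τ k) ∘ₗ rot (-i), ?_⟩
    rintro ⟨j, k'⟩ hne
    simp only [LinearMap.comp_apply, pos]
    rw [rot_neg_rot, rot_neg_rot, sub_self, rot_zero]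
    apply vert_aux τ h0 h1 hinj
    rintro ⟨h2, h3⟩
    apply hne
    rw [h3, sub_eq_zero.1 h2]
  edge e := by
    obtain ⟨i, k⟩ := e
    refine ⟨lf (ce τ k) ∘ₗ rot (-i), ?_⟩
    rintro ⟨j, k'⟩ hne
    rw [sum_eq, sum_eq]
    simp only [LinearMap.comp_apply]
    rw [rot_neg_rot, rot_neg_rot, sub_self, rot_zero]
    apply edge_aux τ h0 h1 hinj
    rintro ⟨h2, h3⟩
    apply hne
    rw [h3, sub_eq_zero.1 h2]
  ne e := by
    obtain ⟨i, k⟩ := e
    rcases k with t | t | _ | _
    · simp [ea, eb]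
    · simp only [ea, eb, ne_eq, Prod.mk.injEq, and_true]
      fin_cases i <;> decide
    · simp [ea, eb]
    · simp [ea, eb]

/-- vertices of the subconfiguration -/
def fv (N j : ℕ) (hj : j ≤ 3) : (Fin 3 × Option (Fin N)) ⊕ Fin j → Fin 3 × VK (Fin N)
  | Sum.inl (i, none) => (i, VK.x)
  | Sum.inl (i, some t) => (i, VK.v t)
  | Sum.inr i => (Fin.castLE hj i, VK.u)

/-- edges of the subconfiguration -/
def fe (N j : ℕ) (hj : j ≤ 3) :
    ((Fin 3 × Fin N) ⊕ (Fin 3 × Fin N)) ⊕ (Fin j ⊕ Fin j) → Fin 3 × EK (Fin N)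
  | Sum.inl (Sum.inl (i, t)) => (i, EK.s t)
  | Sum.inl (Sum.inr (i, t)) => (i, EK.m t)
  | Sum.inr (Sum.inl i) => (Fin.castLE hj i, EK.pu)
  | Sum.inr (Sum.inr i) => (Fin.castLE hj i, EK.q)

/-- first end in the subconfiguration -/
def sa (N j : ℕ) (hj : j ≤ 3) :
    ((Fin 3 × Fin N) ⊕ (Fin 3 × Fin N)) ⊕ (Fin j ⊕ Fin j) → (Fin 3 × Option (Fin N)) ⊕ Fin j
  | Sum.inl (Sum.inl (i, _)) => Sum.inl (i, none)
  | Sum.inl (Sum.inr (i, t)) => Sum.inl (i + 1, some t)
  | Sum.inr (Sum.inl i) => Sum.inl (Fin.castLE hj i, none)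
  | Sum.inr (Sum.inr i) => Sum.inr i

/-- second end in the subconfiguration -/
def sb (N j : ℕ) (hj : j ≤ 3) :
    ((Fin 3 × Fin N) ⊕ (Fin 3 × Fin N)) ⊕ (Fin j ⊕ Fin j) → (Fin 3 × Option (Fin N)) ⊕ Fin j
  | Sum.inl (Sum.inl (i, t)) => Sum.inl (i, some t)
  | Sum.inl (Sum.inr (i, t)) => Sum.inl (i + 2, some t)
  | Sum.inr (Sum.inl i) => Sum.inr i
  | Sum.inr (Sum.inr i) => Sum.inl (Fin.castLE hj i + 1, none)

theorem lower (N j : ℕ) (hj : j ≤ 3) : ∃ G : SimpleGraph (Fin (3 * (N + 1) + j)),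
    StrongConvexDimTwo G ∧ G.edgeSet.ncard = 6 * N + 2 * j := by
  let τ : Fin N → ℝ := fun t => 1 / ((t : ℕ) + 1)
  have h0 : ∀ t, 0 ≤ τ t := by intro t; simp only [τ]; positivity
  have h1 : ∀ t, τ t ≤ 1 := by
    intro t
    simp only [τ]
    rw [div_le_one (by positivity)]
    have : (0 : ℝ) ≤ (t : ℕ) := Nat.cast_nonneg _
    linarith
  have hinj : Function.Injective τ := by
    intro s t hst
    simp only [τ] at hst
    have hs : ((s : ℕ) : ℝ) + 1 ≠ 0 := by positivity
    have ht : ((t : ℕ) : ℝ) + 1 ≠ 0 := by positivity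
    rw [div_eq_div_iff hs ht] at hst
    have : ((s : ℕ) : ℝ) = (t : ℕ) := by linarith
    exact Fin.ext (by exact_mod_cast this)
  have hfv : Function.Injective (fv N j hj) := by
    intro a b hab
    rcases a with ⟨i, _ | t⟩ | i <;> rcases b with ⟨i', _ | t'⟩ | i' <;>
      simp [fv] at hab ⊢ <;> assumption
  have hfe : Function.Injective (fe N j hj) := by
    intro a b hab
    rcases a with (⟨i, t⟩ | ⟨i, t⟩) | (i | i) <;> rcases b with (⟨i', t'⟩ | ⟨i', t'⟩) | (i' | i') <;>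
      simp [fe] at hab ⊢ <;> assumption
  have h := (fc τ h0 h1 hinj).restrict (fv N j hj) hfv (fe N j hj) hfe (sa N j hj) (sb N j hj)
    (by rintro ((⟨i, t⟩ | ⟨i, t⟩) | (i | i)) <;> rfl)
    (by rintro ((⟨i, t⟩ | ⟨i, t⟩) | (i | i)) <;> rfl)
  have e0 : Fintype.card ((Fin 3 × Option (Fin N)) ⊕ Fin j) = 3 * (N + 1) + j := by
    simp only [Fintype.card_sum, Fintype.card_prod, Fintype.card_option, Fintype.card_fin]
  have h2 := h.exists_graph'
  rw [e0] at h2
  obtain ⟨G, hG, hcard⟩ := h2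
  refine ⟨G, hG, ?_⟩
  rw [hcard]
  simp only [Fintype.card_sum, Fintype.card_prod, Fintype.card_fin]
  ring

theorem lower_all (n : ℕ) (hn : 3 ≤ n) : ∃ G : SimpleGraph (Fin n),
    StrongConvexDimTwo G ∧ G.edgeSet.ncard = 2 * n - 6 := by
  have h := lower ((n - 3) / 3) ((n - 3) % 3) (by omega)
  have e : 3 * ((n - 3) / 3 + 1) + (n - 3) % 3 = n := by omega
  have e2 : 6 * ((n - 3) / 3) + 2 * ((n - 3) % 3) = 2 * n - 6 := by omega
  rw [e, e2] at h
  exact h

end Tri

end Pool.Agent.H80
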