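import Pool.Agent.H80.CycLift
import Pool.Agent.H80.StrongConvexDim

/-!
The upper bound for the number of edges.
-/

namespace Pool.Agent.H80

lemma exists_lin (φ : StrongDual ℝ (ℝ × ℝ)) : ∃ c : ℝ × ℝ, ∀ x, φ x = lin c x := by
  refine ⟨(φ (1, 0), φ (0, 1)), fun x => ?_⟩
  have : x = x.1 • ((1, 0) : ℝ × ℝ) + x.2 • ((0, 1) : ℝ × ℝ) := by
    ext <;> simp
  conv_lhs => rw [this]
  rw [map_add, map_smul, map_smul]
  unfold lin
  simp only [smul_eq_mul]
  ring

/-- a point of a finite set in strictly convex position is separated from the others -/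
lemma StrictlyConvexPosition.sep {X : Set (ℝ × ℝ)} (hX : StrictlyConvexPosition X)
    (hfin : X.Finite) {x : ℝ × ℝ} (hx : x ∈ X) :
    ∃ c : ℝ × ℝ, ∀ y ∈ X, y ≠ x → lin c y < lin c x := by
  have h1 := hX x hx
  rw [(convex_convexHull ℝ X).mem_extremePoints_iff_mem_sdiff_convexHull_sdiff] at h1
  have h2 : x ∉ convexHull ℝ (X \ {x}) := by
    intro h
    exact h1.2 (convexHull_mono (Set.sdiff_subset_sdiff_left (subset_convexHull ℝ X)) h)
  have hfin' : (X \ {x}).Finite := hfin.subset Set.sdiff_subset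
  obtain ⟨φ, u, h3, h4⟩ := geometric_hahn_banach_closed_point (convex_convexHull ℝ (X \ {x}))
    (hfin'.isClosed_convexHull (𝕜 := ℝ)) h2
  obtain ⟨c, hc⟩ := exists_lin φ
  refine ⟨c, fun y hy hne => ?_⟩
  have h5 := h3 y (subset_convexHull ℝ _ ⟨hy, hne⟩)
  rw [hc] at h5 h4
  linarith

lemma lin_midpoint (c x y : ℝ × ℝ) :
    lin c (midpoint ℝ x y) = (lin c x + lin c y) / 2 := by
  rw [midpoint_eq_smul_add]
  unfold lin
  simp only [invOf_eq_inv, Prod.smul_fst, Prod.smul_snd, Prod.fst_add, Prod.snd_add, smul_eq_mul]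
  ring

/-- every graph on `n ≥ 4` vertices of strong convex dimension 2 has at most `2n - 4` edges -/
theorem upper_graph {n : ℕ} (hn : 4 ≤ n) (G : SimpleGraph (Fin n))
    (hG : StrongConvexDimTwo G) : G.edgeSet.ncard + 4 ≤ 2 * n := by
  classical
  obtain ⟨f, hf⟩ := hG
  have hEF : G.edgeSet.ncard = G.edgeFinset.card := by
    rw [← SimpleGraph.coe_edgeFinset, Set.ncard_coe_finset]
  obtain ⟨k, rfl⟩ := Nat.exists_eq_add_of_le' hn
  have h := upper_aux f k Finset.univ G.edgeFinset (by simp)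
    (by
      intro v _
      obtain ⟨c, hc⟩ := hf.vertices_convex.sep (Set.finite_range f) (Set.mem_range_self v)
      exact ⟨c, fun w _ hwv => hc (f w) (Set.mem_range_self w) (fun h => hwv (hf.inj h))⟩)
    (by
      intro u v huv
      rw [SimpleGraph.mem_edgeFinset, SimpleGraph.mem_edgeSet] at huv
      exact ⟨huv.ne, Finset.mem_univ _, Finset.mem_univ _⟩)
    (by
      intro i j hij
      rw [SimpleGraph.mem_edgeFinset] at hij
      obtain ⟨c, hc⟩ := hf.midpoints_convex.sep
        ((Set.toFinite G.edgeSet).image _) (Set.mem_image_of_mem _ hij)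
      refine ⟨c, fun k l hkl hne => ?_⟩
      rw [SimpleGraph.mem_edgeFinset] at hkl
      have h1 := hc _ (Set.mem_image_of_mem (edgeMidpoint f) hkl)
        (fun h => hne (hf.midpoints_inj hkl hij h))
      have e1 : edgeMidpoint f s(k, l) = midpoint ℝ (f k) (f l) := rfl
      have e2 : edgeMidpoint f s(i, j) = midpoint ℝ (f i) (f j) := rfl
      rw [e1, e2, lin_midpoint, lin_midpoint] at h1
      linarith)
  rw [hEF]
  simpa using h

end Pool.Agent.H80
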